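import Mathlib

/-! One-component expansion bound. -/

set_option autoImplicit false

namespace Pool.Agent.FatChain

theorem comp_bound {X X' f f' g e1 e2 F G : ℝ} (hX : |X - X'| ≤ e1) (hf : |f - f'| ≤ e2)
    (hF : |f| ≤ F) (hF' : |f'| ≤ F) (hg : |g| ≤ G) :
    (X + f + g) ^ 2 ≤ X ^ 2 + 2 * X * f + f' ^ 2 + 2 * X' * g
      + (2 * F * e2 + 2 * e1 * G + 2 * F * G + G ^ 2) := by
  have h1 : (f - f') * (f + f') ≤ e2 * (2 * F) := by
    calc (f - f') * (f + f') ≤ |(f - f') * (f + f')| := le_abs_self _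
      _ = |f - f'| * |f + f'| := abs_mul _ _
      _ ≤ e2 * (2 * F) := by
        apply mul_le_mul hf _ (abs_nonneg _) ((abs_nonneg _).trans hf)
        calc |f + f'| ≤ |f| + |f'| := abs_add_le _ _
          _ ≤ 2 * F := by linarith
  have h2 : (X - X') * g ≤ e1 * G := by
    calc (X - X') * g ≤ |(X - X') * g| := le_abs_self _
      _ = |X - X'| * |g| := abs_mul _ _
      _ ≤ e1 * G := mul_le_mul hX hg (abs_nonneg _) ((abs_nonneg _).trans hX)
  have h3 : f * g ≤ F * G := by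
    calc f * g ≤ |f * g| := le_abs_self _
      _ = |f| * |g| := abs_mul _ _
      _ ≤ F * G := mul_le_mul hF hg (abs_nonneg _) ((abs_nonneg _).trans hF)
  have h4 : g ^ 2 ≤ G ^ 2 := by
    rw [← sq_abs g]
    exact pow_le_pow_left₀ (abs_nonneg _) hg 2
  nlinarith [h1, h2, h3, h4]

end Pool.Agent.FatChain
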