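import Mathlib

/-!
# Chains of five fat links in three-space: definitions

A configuration of a five-link chain is given by its six vertices `v 0, …, v 5`; the link
with index `i : Fin 5` joins `v i.castSucc` (the vertex number `i`) to `v i.succ` (the vertex
number `i + 1`).
-/

set_option autoImplicit false

namespace Pool.Agent.FatChain

/-- Euclidean three-space. -/
abbrev E3 := EuclideanSpace ℝ (Fin 3)

/-- The fat link with axis the segment `ab`: the union of the closed unit balls centred at `a`
and at `b` and of the solid cylinder of radius one with axis the segment `ab`. -/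
def fatLink (a b : E3) : Set E3 :=
  Metric.closedBall a 1 ∪ Metric.closedBall b 1 ∪
    {x | ∃ p ∈ segment ℝ a b, inner ℝ (x - p) (b - a) = 0 ∧ dist x p ≤ 1}

/-- `v` is a configuration of the chain with link lengths `ℓ 0, …, ℓ 4`. -/
def IsConfig (ℓ : Fin 5 → ℝ) (v : Fin 6 → E3) : Prop :=
  ∀ i : Fin 5, dist (v i.castSucc) (v i.succ) = ℓ i

/-- A configuration is simple if non-adjacent fat links are disjoint. -/
def IsSimple (v : Fin 6 → E3) : Prop :=
  ∀ i j : Fin 5, i.val + 2 ≤ j.val →
    Disjoint (fatLink (v i.castSucc) (v i.succ)) (fatLink (v j.castSucc) (v j.succ))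

/-- `v` is the straightened configuration of the chain with link lengths `ℓ`, in some position
in space: all links point in the same direction. -/
def IsStraight (ℓ : Fin 5 → ℝ) (v : Fin 6 → E3) : Prop :=
  ∃ e : E3, ‖e‖ = 1 ∧ ∀ i : Fin 5, v i.succ - v i.castSucc = ℓ i • e

/-- A motion: a continuous family, indexed by the time `t ∈ [0, 1]`, of simple configurations of
the chain with link lengths `ℓ`. -/
def IsMotion (ℓ : Fin 5 → ℝ) (γ : ℝ → Fin 6 → E3) : Prop :=
  ContinuousOn γ (Set.Icc 0 1) ∧ ∀ t ∈ Set.Icc (0 : ℝ) 1, IsConfig ℓ (γ t) ∧ IsSimple (γ t)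

/-- A locked simple configuration: no motion carries it to the straightened configuration. -/
def IsLocked (ℓ : Fin 5 → ℝ) (v : Fin 6 → E3) : Prop :=
  IsConfig ℓ v ∧ IsSimple v ∧
    ¬ ∃ γ : ℝ → Fin 6 → E3, IsMotion ℓ γ ∧ γ 0 = v ∧ IsStraight ℓ (γ 1)

/-- The link length ratio: largest link length over smallest link length. -/
noncomputable def lengthRatio (ℓ : Fin 5 → ℝ) : ℝ := (⨆ i, ℓ i) / (⨅ i, ℓ i)

end Pool.Agent.FatChain
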