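import Mathlib
import Pool.Agent.Lib.MP_0c5608_co.Defs

/-! Best-fit orthonormal frames of five vectors in three-space, and the first order
conditions they satisfy. -/

set_option autoImplicit false

namespace Pool.Agent.FatChain

/-- three orthonormal vectors -/
def On3 (x y z : E3) : Prop :=
  inner ℝ x x = 1 ∧ inner ℝ y y = 1 ∧ inner ℝ z z = 1 ∧
    inner ℝ x y = 0 ∧ inner ℝ y z = 0 ∧ inner ℝ z x = 0

theorem On3.cyc {x y z : E3} (h : On3 x y z) : On3 y z x :=
  ⟨h.2.1, h.2.2.1, h.1, h.2.2.2.2.1, h.2.2.2.2.2, h.2.2.2.1⟩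

theorem On3.parseval {x y z : E3} (h : On3 x y z) (w : E3) :
    ‖w‖ ^ 2 = (inner ℝ x w) ^ 2 + (inner ℝ y w) ^ 2 + (inner ℝ z w) ^ 2 := by
  obtain ⟨h1, h2, h3, h4, h5, h6⟩ := h
  have ho : Orthonormal ℝ (![x, y, z] : Fin 3 → E3) := by
    rw [orthonormal_iff_ite]
    intro i j
    have h4' := h4; have h5' := h5; have h6' := h6
    rw [real_inner_comm] at h4' h5' h6'
    have n1 : ‖x‖ = 1 := by
      have := real_inner_self_eq_norm_sq x
      nlinarith [norm_nonneg x]
    have n2 : ‖y‖ = 1 := by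
      have := real_inner_self_eq_norm_sq y
      nlinarith [norm_nonneg y]
    have n3 : ‖z‖ = 1 := by
      have := real_inner_self_eq_norm_sq z
      nlinarith [norm_nonneg z]
    fin_cases i <;> fin_cases j <;> simp [n1, n2, n3, h4, h5, h6, h4', h5', h6']
  have hc : Fintype.card (Fin 3) = Module.finrank ℝ E3 := by simp
  let b := basisOfOrthonormalOfCardEqFinrank ho hc
  have hb : (⇑b : Fin 3 → E3) = ![x, y, z] := coe_basisOfOrthonormalOfCardEqFinrank ho hc
  let ob := b.toOrthonormalBasis (by rw [hb]; exact ho)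
  have hob : (⇑ob : Fin 3 → E3) = ![x, y, z] := by
    rw [Module.Basis.coe_toOrthonormalBasis]; exact hb
  have := ob.sum_sq_norm_inner_right w
  rw [← this, Fin.sum_univ_three, hob]
  simp

/-- squared misfit -/
noncomputable def misfit (u : Fin 5 → E3) (p q r : Fin 5 → ℝ) (x y z : E3) : ℝ :=
  ∑ k, ((inner ℝ x (u k) - p k) ^ 2 + (inner ℝ y (u k) - q k) ^ 2
    + (inner ℝ z (u k) - r k) ^ 2)

theorem misfit_cyc (u : Fin 5 → E3) (p q r : Fin 5 → ℝ) (x y z : E3) :
    misfit u p q r x y z = misfit u q r p y z x := by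
  unfold misfit
  refine Finset.sum_congr rfl fun k _ => ?_
  ring

theorem rot_aux {P N : ℝ} (h : ∀ C S : ℝ, C ^ 2 + S ^ 2 = 1 → (C - 1) * P + S * N ≤ 0) :
    N = 0 := by
  by_contra hN
  have hpos : 0 < P ^ 2 + N ^ 2 := by positivity
  set R := Real.sqrt (P ^ 2 + N ^ 2) with hR
  have hR2 : R ^ 2 = P ^ 2 + N ^ 2 := Real.sq_sqrt hpos.le
  have hRpos : 0 < R := Real.sqrt_pos.2 hpos
  have h1 := h (P / R) (N / R) (by field_simp; linarith)
  have h2 : P / R * P + N / R * N = R := by
    field_simp; linarith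
  have h3 : R ≤ P := by nlinarith [h1, h2]
  have h4 : R ^ 2 ≤ P ^ 2 := pow_le_pow_left₀ hRpos.le h3 2
  have h5 : 0 < N ^ 2 := by positivity
  linarith

/-- first order condition for a best-fit frame -/
theorem rot_eq {u : Fin 5 → E3} {p q r : Fin 5 → ℝ} {x y z : E3} (h : On3 x y z)
    (hmin : ∀ x' y' z' : E3, On3 x' y' z' → misfit u p q r x y z ≤ misfit u p q r x' y' z') :
    ∑ k, (inner ℝ y (u k) * p k - inner ℝ x (u k) * q k) = 0 := by
  apply rot_aux (P := ∑ k, (inner ℝ x (u k) * p k + inner ℝ y (u k) * q k))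
  intro C S hCS
  obtain ⟨h1, h2, h3, h4, h5, h6⟩ := h
  have h4' : inner ℝ y x = 0 := by rw [real_inner_comm]; exact h4
  have h5' : inner ℝ z y = 0 := by rw [real_inner_comm]; exact h5
  have h6' : inner ℝ x z = 0 := by rw [real_inner_comm]; exact h6
  have hon : On3 (C • x + S • y) (-S • x + C • y) z := by
    refine ⟨?_, ?_, h3, ?_, ?_, ?_⟩
    · simp only [inner_add_left, inner_add_right, inner_smul_left, inner_smul_right, h1, h2, h4,
        h4']
      simp; nlinarith [hCS]
    · simp only [inner_add_left, inner_add_right, inner_smul_left, inner_smul_right, h1, h2, h4,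
        h4']
      simp; nlinarith [hCS]
    · simp only [inner_add_left, inner_add_right, inner_smul_left, inner_smul_right, h1, h2, h4,
        h4']
      simp; ring
    · simp only [inner_add_left, inner_smul_left, h6', h5]
      simp
    · simp only [inner_add_right, inner_smul_right, h6, h5']
      simp
  have hm := hmin _ _ _ hon
  unfold misfit at hm
  have key : ∑ k, ((inner ℝ (C • x + S • y) (u k) - p k) ^ 2
      + (inner ℝ (-S • x + C • y) (u k) - q k) ^ 2 + (inner ℝ z (u k) - r k) ^ 2)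
      = ∑ k, ((inner ℝ x (u k) - p k) ^ 2 + (inner ℝ y (u k) - q k) ^ 2
        + (inner ℝ z (u k) - r k) ^ 2)
        - 2 * ((C - 1) * ∑ k, (inner ℝ x (u k) * p k + inner ℝ y (u k) * q k)
          + S * ∑ k, (inner ℝ y (u k) * p k - inner ℝ x (u k) * q k)) := by
    rw [Finset.mul_sum, Finset.mul_sum, ← Finset.sum_add_distrib, Finset.mul_sum,
      ← Finset.sum_sub_distrib]
    refine Finset.sum_congr rfl fun k _ => ?_
    simp only [inner_add_left, inner_smul_left]
    simp only [conj_trivial]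
    have hC : C ^ 2 = 1 - S ^ 2 := by linarith
    linear_combination ((inner ℝ x (u k)) ^ 2 + (inner ℝ y (u k)) ^ 2) * hCS
  rw [key] at hm
  linarith

/-- the set of orthonormal frames -/
def frames : Set (E3 × E3 × E3) := {w | On3 w.1 w.2.1 w.2.2}

theorem isCompact_frames : IsCompact frames := by
  have hcl : IsClosed frames := by
    have : frames = {w : E3 × E3 × E3 | inner ℝ w.1 w.1 = (1 : ℝ)} ∩
        ({w | inner ℝ w.2.1 w.2.1 = (1 : ℝ)} ∩ ({w | inner ℝ w.2.2 w.2.2 = (1 : ℝ)} ∩
        ({w | inner ℝ w.1 w.2.1 = (0 : ℝ)} ∩ ({w | inner ℝ w.2.1 w.2.2 = (0 : ℝ)} ∩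
        {w | inner ℝ w.2.2 w.1 = (0 : ℝ)})))) := by
      ext w; simp only [frames, On3, Set.mem_inter_iff, Set.mem_ofPred_eq]
    rw [this]
    have c1 : Continuous (fun w : E3 × E3 × E3 => w.1) := continuous_fst
    have c2 : Continuous (fun w : E3 × E3 × E3 => w.2.1) := continuous_fst.comp continuous_snd
    have c3 : Continuous (fun w : E3 × E3 × E3 => w.2.2) := continuous_snd.comp continuous_snd
    refine IsClosed.inter (isClosed_eq (c1.inner c1) continuous_const) ?_
    refine IsClosed.inter (isClosed_eq (c2.inner c2) continuous_const) ?_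
    refine IsClosed.inter (isClosed_eq (c3.inner c3) continuous_const) ?_
    refine IsClosed.inter (isClosed_eq (c1.inner c2) continuous_const) ?_
    refine IsClosed.inter (isClosed_eq (c2.inner c3) continuous_const) ?_
    exact isClosed_eq (c3.inner c1) continuous_const
  have hsub : frames ⊆ Metric.closedBall 0 1 := by
    intro w hw
    obtain ⟨h1, h2, h3, -, -, -⟩ := hw
    have n1 : ‖w.1‖ = 1 := by
      have := real_inner_self_eq_norm_sq w.1
      nlinarith [norm_nonneg w.1]
    have n2 : ‖w.2.1‖ = 1 := by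
      have := real_inner_self_eq_norm_sq w.2.1
      nlinarith [norm_nonneg w.2.1]
    have n3 : ‖w.2.2‖ = 1 := by
      have := real_inner_self_eq_norm_sq w.2.2
      nlinarith [norm_nonneg w.2.2]
    rw [mem_closedBall_zero_iff, Prod.norm_def, Prod.norm_def, n1, n2, n3]
    simp
  exact (isCompact_closedBall 0 1).of_isClosed_subset hcl hsub

theorem continuous_misfit (u : Fin 5 → E3) (p q r : Fin 5 → ℝ) :
    Continuous (fun w : E3 × E3 × E3 => misfit u p q r w.1 w.2.1 w.2.2) := by
  unfold misfit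
  have c1 : Continuous (fun w : E3 × E3 × E3 => w.1) := continuous_fst
  have c2 : Continuous (fun w : E3 × E3 × E3 => w.2.1) := continuous_fst.comp continuous_snd
  have c3 : Continuous (fun w : E3 × E3 × E3 => w.2.2) := continuous_snd.comp continuous_snd
  refine continuous_finsetSum _ fun k _ => ?_
  exact ((((c1.inner continuous_const).sub continuous_const).pow 2).add
    (((c2.inner continuous_const).sub continuous_const).pow 2)).add
    (((c3.inner continuous_const).sub continuous_const).pow 2)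

theorem exists_best (u : Fin 5 → E3) (p q r : Fin 5 → ℝ) {x0 y0 z0 : E3} (h0 : On3 x0 y0 z0) :
    ∃ x y z : E3, On3 x y z ∧
      ∀ x' y' z' : E3, On3 x' y' z' → misfit u p q r x y z ≤ misfit u p q r x' y' z' := by
  have hne : frames.Nonempty := ⟨(x0, y0, z0), h0⟩
  obtain ⟨w, hw, hmin⟩ := isCompact_frames.exists_isMinOn hne
    (continuous_misfit u p q r).continuousOn
  rw [isMinOn_iff] at hmin
  exact ⟨w.1, w.2.1, w.2.2, hw, fun x' y' z' h' => hmin (x', y', z') h'⟩

/-- changing the vectors a little changes the misfit a little -/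
theorem misfit_perturb {u u' : Fin 5 → E3} {p q r : Fin 5 → ℝ} {x y z : E3} (h : On3 x y z) :
    misfit u' p q r x y z ≤ 3 / 2 * misfit u p q r x y z + 3 * ∑ k, ‖u' k - u k‖ ^ 2 := by
  unfold misfit
  rw [Finset.mul_sum, Finset.mul_sum, ← Finset.sum_add_distrib]
  refine Finset.sum_le_sum fun k _ => ?_
  rw [h.parseval (u' k - u k)]
  simp only [inner_sub_right]
  nlinarith [sq_nonneg ((inner ℝ x (u k) - p k) - 2 * (inner ℝ x (u' k) - inner ℝ x (u k))),
    sq_nonneg ((inner ℝ y (u k) - q k) - 2 * (inner ℝ y (u' k) - inner ℝ y (u k))),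
    sq_nonneg ((inner ℝ z (u k) - r k) - 2 * (inner ℝ z (u' k) - inner ℝ z (u k)))]

end Pool.Agent.FatChain
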