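import Mathlib
import Pool.Agent.Lib.MP_0c5608_co.Defs

/-! Fat links are disjoint exactly when their axes are at distance more than two. -/

set_option autoImplicit false

namespace Pool.Agent.FatChain

theorem near_of_mem_fatLink {a b x : E3} (h : x ∈ fatLink a b) :
    ∃ p ∈ segment ℝ a b, dist x p ≤ 1 := by
  rcases h with (h | h) | ⟨p, hp, -, hx⟩
  · exact ⟨a, left_mem_segment ℝ a b, h⟩
  · exact ⟨b, right_mem_segment ℝ a b, h⟩
  · exact ⟨p, hp, hx⟩

theorem mem_fatLink_of_near {a b x p : E3} (hp : p ∈ segment ℝ a b) (hx : dist x p ≤ 1) :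
    x ∈ fatLink a b := by
  rw [segment_eq_image'] at hp
  obtain ⟨t, ⟨ht0, ht1⟩, rfl⟩ := hp
  set d := b - a with hd
  by_cases hd0 : d = 0
  · left; left
    rw [Metric.mem_closedBall]
    simpa [hd0] using hx
  have hdd : 0 < inner ℝ d d := real_inner_self_pos.2 hd0
  set m := inner ℝ (x - a) d with hm
  rw [dist_eq_norm] at hx
  have hx2 : ‖x - (a + t • d)‖ ^ 2 ≤ 1 := by
    have := norm_nonneg (x - (a + t • d)); nlinarith
  have e1 : ‖x - (a + t • d)‖ ^ 2 = ‖x - a‖ ^ 2 - 2 * t * m + t ^ 2 * inner ℝ d d := by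
    have : x - (a + t • d) = (x - a) - t • d := by abel
    rw [this, norm_sub_sq_real, inner_smul_right, norm_smul, mul_pow, real_inner_self_eq_norm_sq]
    simp only [Real.norm_eq_abs, sq_abs]
    ring
  rcases lt_or_ge m 0 with h0 | h0
  · left; left
    rw [Metric.mem_closedBall, dist_eq_norm]
    have : ‖x - a‖ ^ 2 ≤ 1 := by nlinarith [mul_nonneg ht0 (neg_nonneg.2 h0.le), mul_nonneg (sq_nonneg t) hdd.le]
    nlinarith [norm_nonneg (x - a)]
  rcases lt_or_ge (inner ℝ d d) m with h1 | h1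
  · left; right
    rw [Metric.mem_closedBall, dist_eq_norm]
    have e2 : ‖x - b‖ ^ 2 = ‖x - a‖ ^ 2 - 2 * m + inner ℝ d d := by
      have : x - b = (x - a) - d := by rw [hd]; abel
      rw [this, norm_sub_sq_real, real_inner_self_eq_norm_sq]
    have : ‖x - b‖ ^ 2 ≤ 1 := by
      nlinarith [mul_nonneg (sub_nonneg.2 ht1) (sub_nonneg.2 h1.le), mul_nonneg (sub_nonneg.2 ht1) hdd.le,
        mul_nonneg (mul_nonneg (sub_nonneg.2 ht1) (sub_nonneg.2 ht1)) hdd.le]
    nlinarith [norm_nonneg (x - b)]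
  · right
    set s := m / inner ℝ d d with hs
    have hs0 : 0 ≤ s := div_nonneg h0 hdd.le
    have hs1 : s ≤ 1 := (div_le_one hdd).2 h1
    have hsm : s * inner ℝ d d = m := by rw [hs]; field_simp
    refine ⟨a + s • d, ?_, ?_, ?_⟩
    · rw [segment_eq_image']
      exact ⟨s, ⟨hs0, hs1⟩, rfl⟩
    · have : x - (a + s • d) = (x - a) - s • d := by abel
      rw [this, inner_sub_left, inner_smul_left]
      simp only [conj_trivial]
      linarith
    · rw [dist_eq_norm]
      have e3 : ‖x - (a + s • d)‖ ^ 2 = ‖x - a‖ ^ 2 - 2 * s * m + s ^ 2 * inner ℝ d d := by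
        have : x - (a + s • d) = (x - a) - s • d := by abel
        rw [this, norm_sub_sq_real, inner_smul_right, norm_smul, mul_pow,
          real_inner_self_eq_norm_sq]
        simp only [Real.norm_eq_abs, sq_abs]
        ring
      have e4 : ‖x - (a + t • d)‖ ^ 2 = ‖x - (a + s • d)‖ ^ 2 + (s - t) ^ 2 * inner ℝ d d := by
        rw [e1, e3, ← hsm]; ring
      have : ‖x - (a + s • d)‖ ^ 2 ≤ 1 := by nlinarith [mul_nonneg (sq_nonneg (s - t)) hdd.le]
      nlinarith [norm_nonneg (x - (a + s • d))]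

theorem disjoint_fatLink_iff {a b c d : E3} :
    Disjoint (fatLink a b) (fatLink c d) ↔
      ∀ p ∈ segment ℝ a b, ∀ q ∈ segment ℝ c d, 2 < dist p q := by
  constructor
  · intro h p hp q hq
    by_contra hle
    push Not at hle
    have h1 : dist (midpoint ℝ p q) p ≤ 1 := by
      rw [dist_midpoint_left]; norm_num; linarith
    have h2 : dist (midpoint ℝ p q) q ≤ 1 := by
      rw [dist_midpoint_right]; norm_num; linarith
    exact Set.disjoint_left.1 h (mem_fatLink_of_near hp h1) (mem_fatLink_of_near hq h2)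
  · intro h
    rw [Set.disjoint_left]
    intro x hx hy
    obtain ⟨p, hp, hxp⟩ := near_of_mem_fatLink hx
    obtain ⟨q, hq, hxq⟩ := near_of_mem_fatLink hy
    have := h p hp q hq
    have := dist_triangle_left p q x
    linarith

theorem isSimple_iff {v : Fin 6 → E3} :
    IsSimple v ↔ ∀ i j : Fin 5, i.val + 2 ≤ j.val →
      ∀ p ∈ segment ℝ (v i.castSucc) (v i.succ),
      ∀ q ∈ segment ℝ (v j.castSucc) (v j.succ), 2 < dist p q := by
  unfold IsSimple
  simp only [disjoint_fatLink_iff]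

end Pool.Agent.FatChain
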