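import Mathlib
import Pool.Agent.Lib.MP_0c5608_co.Cert
import Pool.Agent.Lib.MP_0c5608_co.Comp
/-! Machine-generated estimates for the locked fat 5-chain. -/

set_option autoImplicit false
set_option maxHeartbeats 4000000
set_option maxRecDepth 100000

namespace Pool.Agent.FatChain

theorem pair13 (a1 a2 a3 b1 b2 b3 c1 c2 c3 : ℝ)
    (ha1 : |a1| ≤ (1/1000000))
    (ha2 : |a2| ≤ (1/1000000))
    (ha3 : |a3| ≤ (1/1000000))
    (hb1 : |b1| ≤ (1/1000000))
    (hb2 : |b2| ≤ (1/1000000))
    (hb3 : |b3| ≤ (1/1000000))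
    (hc1 : |c1| ≤ (1/1000000))
    (hc2 : |c2| ≤ (1/1000000))
    (hc3 : |c3| ≤ (1/1000000))
    (h : ∀ s t : ℝ, 0 ≤ s → s ≤ (10008/10000) → 0 ≤ t → t ≤ 1 →
      (45880708115763867885168956209/1000000000000000000000000000000) < (s*((-183528218127036517600000000000000000/306134241700818260119283571600499737) + a1) + ((211959389351195114800000000000000000/289362864314031832820864927732648629) + b1) + t*(0 + c1))^2
        + (s*((226328934322966122800000000000000000/306134241700818260119283571600499737) + a2) + ((-162983154703466030400000000000000000/289362864314031832820864927732648629) + b2) + t*(0 + c2))^2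
        + (s*((-93865758299181739880716428399500263/306134241700818260119283571600499737) + a3) + ((-110637135685968167179135072267351371/289362864314031832820864927732648629) + b3) + t*(1 + c3))^2) :
    0 < (723/1000000000000000000) + 2*L13 a1 a2 a3 b1 b2 b3 c1 c2 c3 + q13 a1 a2 a3 b1 b2 b3 c1 c2 c3 ∧ q13 a1 a2 a3 b1 b2 b3 c1 c2 c3 ≤ (7/200000000000) := by
  obtain ⟨ha1l, ha1u⟩ := abs_le.1 ha1
  obtain ⟨ha2l, ha2u⟩ := abs_le.1 ha2
  obtain ⟨ha3l, ha3u⟩ := abs_le.1 ha3
  obtain ⟨hb1l, hb1u⟩ := abs_le.1 hb1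
  obtain ⟨hb2l, hb2u⟩ := abs_le.1 hb2
  obtain ⟨hb3l, hb3u⟩ := abs_le.1 hb3
  obtain ⟨hc1l, hc1u⟩ := abs_le.1 hc1
  obtain ⟨hc2l, hc2u⟩ := abs_le.1 hc2
  obtain ⟨hc3l, hc3u⟩ := abs_le.1 hc3
  have hal : |al13 a1 a2 a3 b1 b2 b3 c1 c2 c3| ≤ (21/5000000) := by
    rw [abs_le]; unfold al13; constructor <;> linarith only [ha1l, ha1u, ha2l, ha2u, ha3l, ha3u, hb1l, hb1u, hb2l, hb2u, hb3l, hb3u, hc1l, hc1u, hc2l, hc2u, hc3l, hc3u]
  have hal2 := abs_le.1 hal
  have h1 := h ((188866944733/200000000000) + al13 a1 a2 a3 b1 b2 b3 c1 c2 c3) ((167973959581/250000000000)) (by linarith only [hal2.1]) (by linarith only [hal2.2])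
    (by linarith only []) (by linarith only [])
  have hg1 : |(al13 a1 a2 a3 b1 b2 b3 c1 c2 c3)*a1| ≤ (21/5000000000000) := by
    rw [abs_mul]
    have t1 := mul_le_mul hal ha1 (abs_nonneg _) (by norm_num)
    linarith only [t1]
  have hc1 := comp_bound (X := (14737950181040668378513379805433945399356450448044958302454644484000000/88583881043152899902146492221012195651916719274330158971353667027910573)) (X' := (16637/100000))
    (f := (188866944733/200000000000)*a1 + b1 + (167973959581/250000000000)*c1 + (-183528218127036517600000000000000000/306134241700818260119283571600499737)*(al13 a1 a2 a3 b1 b2 b3 c1 c2 c3))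
    (f' := (70453/100000)*a1 + (1199/2500)*a2 + (-3597/20000)*a3 + (6403/10000)*b1 + (8393/20000)*b2 + (-3597/20000)*b3 + (43209/100000)*c1 + (1199/4000)*c2 + (-1199/10000)*c3)
    (g := (al13 a1 a2 a3 b1 b2 b3 c1 c2 c3)*a1)
    (e1 := (29/10000000)) (e2 := (9/500000000000)) (F := (7/2000000)) (G := (21/5000000000000))
    (by rw [abs_le]; constructor <;> norm_num)
    (by rw [abs_le]; unfold al13; constructor <;> linarith only [ha1l, ha1u, ha2l, ha2u, ha3l, ha3u, hb1l, hb1u, hb2l, hb2u, hb3l, hb3u, hc1l, hc1u, hc2l, hc2u, hc3l, hc3u])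
    (by rw [abs_le]; unfold al13; constructor <;> linarith only [ha1l, ha1u, ha2l, ha2u, ha3l, ha3u, hb1l, hb1u, hb2l, hb2u, hb3l, hb3u, hc1l, hc1u, hc2l, hc2u, hc3l, hc3u])
    (by rw [abs_le]; constructor <;> linarith only [ha1l, ha1u, ha2l, ha2u, ha3l, ha3u, hb1l, hb1u, hb2l, hb2u, hb3l, hb3u, hc1l, hc1u, hc2l, hc2u, hc3l, hc3u])
    hg1
  have he1 : ((188866944733/200000000000) + al13 a1 a2 a3 b1 b2 b3 c1 c2 c3)*((-183528218127036517600000000000000000/306134241700818260119283571600499737) + a1) + ((211959389351195114800000000000000000/289362864314031832820864927732648629) + b1) + ((167973959581/250000000000))*(0 + c1) = (14737950181040668378513379805433945399356450448044958302454644484000000/88583881043152899902146492221012195651916719274330158971353667027910573) + ((188866944733/200000000000)*a1 + b1 + (167973959581/250000000000)*c1 + (-183528218127036517600000000000000000/306134241700818260119283571600499737)*(al13 a1 a2 a3 b1 b2 b3 c1 c2 c3)) + ((al13 a1 a2 a3 b1 b2 b3 c1 c2 c3)*a1) := by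
    ring
  have hg2 : |(al13 a1 a2 a3 b1 b2 b3 c1 c2 c3)*a2| ≤ (21/5000000000000) := by
    rw [abs_mul]
    have t1 := mul_le_mul hal ha2 (abs_nonneg _) (by norm_num)
    linarith only [t1]
  have hc2 := comp_bound (X := (11950879120475502568071979776112522641339371604570509102925038998000000/88583881043152899902146492221012195651916719274330158971353667027910573)) (X' := (13491/100000))
    (f := (188866944733/200000000000)*a2 + b2 + (167973959581/250000000000)*c2 + (226328934322966122800000000000000000/306134241700818260119283571600499737)*(al13 a1 a2 a3 b1 b2 b3 c1 c2 c3))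
    (f' := (29573/100000)*a1 + (4411/12500)*a2 + (22179/100000)*a3 + (44359/100000)*b1 + (6031/12500)*b2 + (22179/100000)*b3 + (29573/100000)*c1 + (1889/6250)*c2 + (7393/50000)*c3)
    (g := (al13 a1 a2 a3 b1 b2 b3 c1 c2 c3)*a2)
    (e1 := (1/3125000)) (e2 := (29/1000000000000)) (F := (7/2500000)) (G := (21/5000000000000))
    (by rw [abs_le]; constructor <;> norm_num)
    (by rw [abs_le]; unfold al13; constructor <;> linarith only [ha1l, ha1u, ha2l, ha2u, ha3l, ha3u, hb1l, hb1u, hb2l, hb2u, hb3l, hb3u, hc1l, hc1u, hc2l, hc2u, hc3l, hc3u])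
    (by rw [abs_le]; unfold al13; constructor <;> linarith only [ha1l, ha1u, ha2l, ha2u, ha3l, ha3u, hb1l, hb1u, hb2l, hb2u, hb3l, hb3u, hc1l, hc1u, hc2l, hc2u, hc3l, hc3u])
    (by rw [abs_le]; constructor <;> linarith only [ha1l, ha1u, ha2l, ha2u, ha3l, ha3u, hb1l, hb1u, hb2l, hb2u, hb3l, hb3u, hc1l, hc1u, hc2l, hc2u, hc3l, hc3u])
    hg2
  have he2 : ((188866944733/200000000000) + al13 a1 a2 a3 b1 b2 b3 c1 c2 c3)*((226328934322966122800000000000000000/306134241700818260119283571600499737) + a2) + ((-162983154703466030400000000000000000/289362864314031832820864927732648629) + b2) + ((167973959581/250000000000))*(0 + c2) = (11950879120475502568071979776112522641339371604570509102925038998000000/88583881043152899902146492221012195651916719274330158971353667027910573) + ((188866944733/200000000000)*a2 + b2 + (167973959581/250000000000)*c2 + (226328934322966122800000000000000000/306134241700818260119283571600499737)*(al13 a1 a2 a3 b1 b2 b3 c1 c2 c3)) + ((al13 a1 a2 a3 b1 b2 b3 c1 c2 c3)*a2) := by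
    ring
  have hg3 : |(al13 a1 a2 a3 b1 b2 b3 c1 c2 c3)*a3| ≤ (21/5000000000000) := by
    rw [abs_mul]
    have t1 := mul_le_mul hal ha3 (abs_nonneg _) (by norm_num)
    linarith only [t1]
  have hc3 := comp_bound (X := (5674572172368219903483398734458578105940067156314440506457748225009697/88583881043152899902146492221012195651916719274330158971353667027910573000000000000)) (X' := 0)
    (f := (188866944733/200000000000)*a3 + b3 + (167973959581/250000000000)*c3 + (-93865758299181739880716428399500263/306134241700818260119283571600499737)*(al13 a1 a2 a3 b1 b2 b3 c1 c2 c3))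
    (f' := (-2453/20000)*a1 + (24529/100000)*a2 + (17047/20000)*a3 + (-18397/100000)*b1 + (21463/100000)*b2 + (45401/50000)*b3 + (-2453/20000)*c1 + (15331/100000)*c2 + (61057/100000)*c3)
    (g := (al13 a1 a2 a3 b1 b2 b3 c1 c2 c3)*a3)
    (e1 := (13/200000000000000)) (e2 := (11/500000000000)) (F := (7/2000000)) (G := (21/5000000000000))
    (by rw [abs_le]; constructor <;> norm_num)
    (by rw [abs_le]; unfold al13; constructor <;> linarith only [ha1l, ha1u, ha2l, ha2u, ha3l, ha3u, hb1l, hb1u, hb2l, hb2u, hb3l, hb3u, hc1l, hc1u, hc2l, hc2u, hc3l, hc3u])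
    (by rw [abs_le]; unfold al13; constructor <;> linarith only [ha1l, ha1u, ha2l, ha2u, ha3l, ha3u, hb1l, hb1u, hb2l, hb2u, hb3l, hb3u, hc1l, hc1u, hc2l, hc2u, hc3l, hc3u])
    (by rw [abs_le]; constructor <;> linarith only [ha1l, ha1u, ha2l, ha2u, ha3l, ha3u, hb1l, hb1u, hb2l, hb2u, hb3l, hb3u, hc1l, hc1u, hc2l, hc2u, hc3l, hc3u])
    hg3
  have he3 : ((188866944733/200000000000) + al13 a1 a2 a3 b1 b2 b3 c1 c2 c3)*((-93865758299181739880716428399500263/306134241700818260119283571600499737) + a3) + ((-110637135685968167179135072267351371/289362864314031832820864927732648629) + b3) + ((167973959581/250000000000))*(1 + c3) = (5674572172368219903483398734458578105940067156314440506457748225009697/88583881043152899902146492221012195651916719274330158971353667027910573000000000000) + ((188866944733/200000000000)*a3 + b3 + (167973959581/250000000000)*c3 + (-93865758299181739880716428399500263/306134241700818260119283571600499737)*(al13 a1 a2 a3 b1 b2 b3 c1 c2 c3)) + ((al13 a1 a2 a3 b1 b2 b3 c1 c2 c3)*a3) :=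 by
    ring
  rw [he1, he2, he3] at h1
  have hlin : (14737950181040668378513379805433945399356450448044958302454644484000000/88583881043152899902146492221012195651916719274330158971353667027910573)*((188866944733/200000000000)*a1 + b1 + (167973959581/250000000000)*c1 + (-183528218127036517600000000000000000/306134241700818260119283571600499737)*(al13 a1 a2 a3 b1 b2 b3 c1 c2 c3)) + (11950879120475502568071979776112522641339371604570509102925038998000000/88583881043152899902146492221012195651916719274330158971353667027910573)*((188866944733/200000000000)*a2 + b2 + (167973959581/250000000000)*c2 + (226328934322966122800000000000000000/306134241700818260119283571600499737)*(al13 a1 a2 a3 b1 b2 b3 c1 c2 c3)) + (5674572172368219903483398734458578105940067156314440506457748225009697/88583881043152899902146492221012195651916719274330158971353667027910573000000000000)*((188866944733/200000000000)*a3 + b3 + (167973959581/250000000000)*c3 + (-93865758299181739880716428399500263/306134241700818260119283571600499737)*(al13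 a1 a2 a3 b1 b2 b3 c1 c2 c3)) ≤ L13 a1 a2 a3 b1 b2 b3 c1 c2 c3 + (19/100000000000000000000) := by
    unfold L13 al13; linarith only [ha1l, ha1u, ha2l, ha2u, ha3l, ha3u, hb1l, hb1u, hb2l, hb2u, hb3l, hb3u, hc1l, hc1u, hc2l, hc2u, hc3l, hc3u]
  have hq : q13 a1 a2 a3 b1 b2 b3 c1 c2 c3 = (((70453/100000)*a1 + (1199/2500)*a2 + (-3597/20000)*a3 + (6403/10000)*b1 + (8393/20000)*b2 + (-3597/20000)*b3 + (43209/100000)*c1 + (1199/4000)*c2 + (-1199/10000)*c3)^2 + 2*(16637/100000)*((al13 a1 a2 a3 b1 b2 b3 c1 c2 c3)*a1)) + (((29573/100000)*a1 + (4411/12500)*a2 + (22179/100000)*a3 + (44359/100000)*b1 + (6031/12500)*b2 + (22179/100000)*b3 + (29573/100000)*c1 + (1889/6250)*c2 + (7393/50000)*c3)^2 + 2*(13491/100000)*((al13 a1 a2 a3 b1 b2 b3 c1 c2 c3)*a2)) + (((-2453/20000)*a1 + (24529/100000)*a2 + (17047/20000)*a3 + (-18397/100000)*b1 + (21463/100000)*b2 + (45401/50000)*b3 + (-2453/20000)*c1 + (15331/100000)*c2 + (61057/100000)*c3)^2 + 2*0*((al13 a1 a2 a3 b1 b2 b3 c1 c2 c3)*a3)) := by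
    unfold q13; ring
  constructor
  · rw [hq]; linarith only [h1, hc1, hc2, hc3, hlin]
  · rw [hq]
    have hs1 : ((70453/100000)*a1 + (1199/2500)*a2 + (-3597/20000)*a3 + (6403/10000)*b1 + (8393/20000)*b2 + (-3597/20000)*b3 + (43209/100000)*c1 + (1199/4000)*c2 + (-1199/10000)*c3)^2 ≤ (49/4000000000000) := by
      have : |(70453/100000)*a1 + (1199/2500)*a2 + (-3597/20000)*a3 + (6403/10000)*b1 + (8393/20000)*b2 + (-3597/20000)*b3 + (43209/100000)*c1 + (1199/4000)*c2 + (-1199/10000)*c3| ≤ (7/2000000) := by rw [abs_le]; constructor <;> linarith only [ha1l, ha1u, ha2l, ha2u, ha3l, ha3u, hb1l, hb1u, hb2l, hb2u, hb3l, hb3u, hc1l, hc1u, hc2l, hc2u, hc3l, hc3u]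
      have := sq_le_sq' (abs_le.1 this).1 (abs_le.1 this).2
      linarith only [this]
    have hk1 := abs_le.1 hg1
    have hs2 : ((29573/100000)*a1 + (4411/12500)*a2 + (22179/100000)*a3 + (44359/100000)*b1 + (6031/12500)*b2 + (22179/100000)*b3 + (29573/100000)*c1 + (1889/6250)*c2 + (7393/50000)*c3)^2 ≤ (49/6250000000000) := by
      have : |(29573/100000)*a1 + (4411/12500)*a2 + (22179/100000)*a3 + (44359/100000)*b1 + (6031/12500)*b2 + (22179/100000)*b3 + (29573/100000)*c1 + (1889/6250)*c2 + (7393/50000)*c3| ≤ (7/2500000) := by rw [abs_le]; constructor <;> linarith only [ha1l, ha1u, ha2l, ha2u, ha3l, ha3u, hb1l, hb1u, hb2l, hb2u, hb3l, hb3u, hc1l, hc1u, hc2l, hc2u, hc3l, hc3u]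
      have := sq_le_sq' (abs_le.1 this).1 (abs_le.1 this).2
      linarith only [this]
    have hk2 := abs_le.1 hg2
    have hs3 : ((-2453/20000)*a1 + (24529/100000)*a2 + (17047/20000)*a3 + (-18397/100000)*b1 + (21463/100000)*b2 + (45401/50000)*b3 + (-2453/20000)*c1 + (15331/100000)*c2 + (61057/100000)*c3)^2 ≤ (49/4000000000000) := by
      have : |(-2453/20000)*a1 + (24529/100000)*a2 + (17047/20000)*a3 + (-18397/100000)*b1 + (21463/100000)*b2 + (45401/50000)*b3 + (-2453/20000)*c1 + (15331/100000)*c2 + (61057/100000)*c3| ≤ (7/2000000) := by rw [abs_le]; constructor <;> linarith only [ha1l, ha1u, ha2l, ha2u, ha3l, ha3u, hb1l, hb1u, hb2l, hb2u, hb3l, hb3u, hc1l, hc1u, hc2l, hc2u, hc3l, hc3u]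
      have := sq_le_sq' (abs_le.1 this).1 (abs_le.1 this).2
      linarith only [this]
    have hk3 := abs_le.1 hg3
    linarith only [hs1, hs2, hs3, hk1.1, hk1.2, hk2.1, hk2.2, hk3.1, hk3.2]

end Pool.Agent.FatChain
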