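import Mathlib
import Pool.Agent.Lib.MP_0c5608_co.Cert
import Pool.Agent.Lib.MP_0c5608_co.Comp
/-! Machine-generated estimates for the locked fat 5-chain. -/

set_option autoImplicit false
set_option maxHeartbeats 4000000
set_option maxRecDepth 100000

namespace Pool.Agent.FatChain

theorem pair14 (a1 a2 a3 b1 b2 b3 c1 c2 c3 d1 d2 d3 : ℝ)
    (ha1 : |a1| ≤ (1/1000000))
    (ha2 : |a2| ≤ (1/1000000))
    (ha3 : |a3| ≤ (1/1000000))
    (hb1 : |b1| ≤ (1/1000000))
    (hb2 : |b2| ≤ (1/1000000))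
    (hb3 : |b3| ≤ (1/1000000))
    (hc1 : |c1| ≤ (1/1000000))
    (hc2 : |c2| ≤ (1/1000000))
    (hc3 : |c3| ≤ (1/1000000))
    (hd1 : |d1| ≤ (1/1000000))
    (hd2 : |d2| ≤ (1/1000000))
    (hd3 : |d3| ≤ (1/1000000))
    (h : ∀ s t : ℝ, 0 ≤ s → s ≤ (10008/10000) → 0 ≤ t → t ≤ 1 →
      (45880708115763867885168956209/1000000000000000000000000000000) < (s*((-183528218127036517600000000000000000/306134241700818260119283571600499737) + a1) + ((211959389351195114800000000000000000/289362864314031832820864927732648629) + b1) + (0 + c1) + t*((-211959389351195114800000000000000000/289362864314031832820864927732648629) + d1))^2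
        + (s*((226328934322966122800000000000000000/306134241700818260119283571600499737) + a2) + ((-162983154703466030400000000000000000/289362864314031832820864927732648629) + b2) + (0 + c2) + t*((-162983154703466030400000000000000000/289362864314031832820864927732648629) + d2))^2
        + (s*((-93865758299181739880716428399500263/306134241700818260119283571600499737) + a3) + ((-110637135685968167179135072267351371/289362864314031832820864927732648629) + b3) + (1 + c3) + t*((-110637135685968167179135072267351371/289362864314031832820864927732648629) + d3))^2) :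
    0 < (169/250000000000000000) + 2*L14 a1 a2 a3 b1 b2 b3 c1 c2 c3 d1 d2 d3 + q14 a1 a2 a3 b1 b2 b3 c1 c2 c3 d1 d2 d3 ∧ q14 a1 a2 a3 b1 b2 b3 c1 c2 c3 d1 d2 d3 ≤ (3/100000000000) := by
  obtain ⟨ha1l, ha1u⟩ := abs_le.1 ha1
  obtain ⟨ha2l, ha2u⟩ := abs_le.1 ha2
  obtain ⟨ha3l, ha3u⟩ := abs_le.1 ha3
  obtain ⟨hb1l, hb1u⟩ := abs_le.1 hb1
  obtain ⟨hb2l, hb2u⟩ := abs_le.1 hb2
  obtain ⟨hb3l, hb3u⟩ := abs_le.1 hb3
  obtain ⟨hc1l, hc1u⟩ := abs_le.1 hc1
  obtain ⟨hc2l, hc2u⟩ := abs_le.1 hc2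
  obtain ⟨hc3l, hc3u⟩ := abs_le.1 hc3
  obtain ⟨hd1l, hd1u⟩ := abs_le.1 hd1
  obtain ⟨hd2l, hd2u⟩ := abs_le.1 hd2
  obtain ⟨hd3l, hd3u⟩ := abs_le.1 hd3
  have hal : |al14 a1 a2 a3 b1 b2 b3 c1 c2 c3 d1 d2 d3| ≤ (13/2500000) := by
    rw [abs_le]; unfold al14; constructor <;> linarith only [ha1l, ha1u, ha2l, ha2u, ha3l, ha3u, hb1l, hb1u, hb2l, hb2u, hb3l, hb3u, hc1l, hc1u, hc2l, hc2u, hc3l, hc3u, hd1l, hd1u, hd2l, hd2u, hd3l, hd3u]
  have hbe : |be14 a1 a2 a3 b1 b2 b3 c1 c2 c3 d1 d2 d3| ≤ (57/10000000) := by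
    rw [abs_le]; unfold be14; constructor <;> linarith only [ha1l, ha1u, ha2l, ha2u, ha3l, ha3u, hb1l, hb1u, hb2l, hb2u, hb3l, hb3u, hc1l, hc1u, hc2l, hc2u, hc3l, hc3u, hd1l, hd1u, hd2l, hd2u, hd3l, hd3u]
  have hal2 := abs_le.1 hal
  have hbe2 := abs_le.1 hbe
  have h1 := h ((1000794330259/1000000000000) + al14 a1 a2 a3 b1 b2 b3 c1 c2 c3 d1 d2 d3) ((39425586299/125000000000) + be14 a1 a2 a3 b1 b2 b3 c1 c2 c3 d1 d2 d3) (by linarith only [hal2.1]) (by linarith only [hal2.2])
    (by linarith only [hbe2.1]) (by linarith only [hbe2.2])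
  have hg1 : |(al14 a1 a2 a3 b1 b2 b3 c1 c2 c3 d1 d2 d3)*a1 + (be14 a1 a2 a3 b1 b2 b3 c1 c2 c3 d1 d2 d3)*d1| ≤ (11/1000000000000) := by
    refine (abs_add_le _ _).trans ?_
    rw [abs_mul, abs_mul]
    have t1 := mul_le_mul hal ha1 (abs_nonneg _) (by norm_num)
    have t2 := mul_le_mul hbe hd1 (abs_nonneg _) (by norm_num)
    linarith only [t1, t2]
  have hc1 := comp_bound (X := (-1246627985062625645631225235009644942300021933860033116099068930400000/12654840149021842843163784603001742235988102753475736995907666718272939)) (X' := (-9851/100000))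
    (f := (1000794330259/1000000000000)*a1 + b1 + c1 + (39425586299/125000000000)*d1 + (-183528218127036517600000000000000000/306134241700818260119283571600499737)*(al14 a1 a2 a3 b1 b2 b3 c1 c2 c3 d1 d2 d3) + (-211959389351195114800000000000000000/289362864314031832820864927732648629)*(be14 a1 a2 a3 b1 b2 b3 c1 c2 c3 d1 d2 d3))
    (f' := (20159/100000)*a1 + (-663/20000)*a2 + (-7059/20000)*a3 + (3/16)*b1 + (-663/20000)*b2 + (-999/2500)*b3 + (3/16)*c1 + (-663/20000)*c2 + (-999/2500)*c3 + (357/10000)*d1 + (667/20000)*d2 + (133/10000)*d3)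
    (g := (al14 a1 a2 a3 b1 b2 b3 c1 c2 c3 d1 d2 d3)*a1 + (be14 a1 a2 a3 b1 b2 b3 c1 c2 c3 d1 d2 d3)*d1)
    (e1 := (13/500000000)) (e2 := (1/50000000000)) (F := (1/500000)) (G := (11/1000000000000))
    (by rw [abs_le]; constructor <;> norm_num)
    (by rw [abs_le]; unfold al14 be14; constructor <;> linarith only [ha1l, ha1u, ha2l, ha2u, ha3l, ha3u, hb1l, hb1u, hb2l, hb2u, hb3l, hb3u, hc1l, hc1u, hc2l, hc2u, hc3l, hc3u, hd1l, hd1u, hd2l, hd2u, hd3l, hd3u])
    (by rw [abs_le]; unfold al14 be14; constructor <;> linarith only [ha1l, ha1u, ha2l, ha2u, ha3l, ha3u, hb1l, hb1u, hb2l, hb2u, hb3l, hb3u, hc1l, hc1u, hc2l, hc2u, hc3l, hc3u, hd1l, hd1u, hd2l, hd2u, hd3l, hd3u])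
    (by rw [abs_le]; constructor <;> linarith only [ha1l, ha1u, ha2l, ha2u, ha3l, ha3u, hb1l, hb1u, hb2l, hb2u, hb3l, hb3u, hc1l, hc1u, hc2l, hc2u, hc3l, hc3u, hd1l, hd1u, hd2l, hd2u, hd3l, hd3u])
    hg1
  have he1 : ((1000794330259/1000000000000) + al14 a1 a2 a3 b1 b2 b3 c1 c2 c3 d1 d2 d3)*((-183528218127036517600000000000000000/306134241700818260119283571600499737) + a1) + ((211959389351195114800000000000000000/289362864314031832820864927732648629) + b1) + (0 + c1) + ((39425586299/125000000000) + be14 a1 a2 a3 b1 b2 b3 c1 c2 c3 d1 d2 d3)*((-211959389351195114800000000000000000/289362864314031832820864927732648629) + d1) = (-1246627985062625645631225235009644942300021933860033116099068930400000/12654840149021842843163784603001742235988102753475736995907666718272939) + ((1000794330259/1000000000000)*a1 + b1 + c1 + (39425586299/125000000000)*d1 + (-183528218127036517600000000000000000/306134241700818260119283571600499737)*(al14 a1 a2 a3 b1 b2 b3 c1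 c2 c3 d1 d2 d3) + (-211959389351195114800000000000000000/289362864314031832820864927732648629)*(be14 a1 a2 a3 b1 b2 b3 c1 c2 c3 d1 d2 d3)) + ((al14 a1 a2 a3 b1 b2 b3 c1 c2 c3 d1 d2 d3)*a1 + (be14 a1 a2 a3 b1 b2 b3 c1 c2 c3 d1 d2 d3)*d1) := by
    ring
  have hg2 : |(al14 a1 a2 a3 b1 b2 b3 c1 c2 c3 d1 d2 d3)*a2 + (be14 a1 a2 a3 b1 b2 b3 c1 c2 c3 d1 d2 d3)*d2| ≤ (11/1000000000000) := by
    refine (abs_add_le _ _).trans ?_
    rw [abs_mul, abs_mul]
    have t1 := mul_le_mul hal ha2 (abs_nonneg _) (by norm_num)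
    have t2 := mul_le_mul hbe hd2 (abs_nonneg _) (by norm_num)
    linarith only [t1, t2]
  have hc2 := comp_bound (X := (-88544254704060738953496224344248923580268322517782920070444810800000/88583881043152899902146492221012195651916719274330158971353667027910573)) (X' := (-1/1000))
    (f := (1000794330259/1000000000000)*a2 + b2 + c2 + (39425586299/125000000000)*d2 + (226328934322966122800000000000000000/306134241700818260119283571600499737)*(al14 a1 a2 a3 b1 b2 b3 c1 c2 c3 d1 d2 d3) + (-162983154703466030400000000000000000/289362864314031832820864927732648629)*(be14 a1 a2 a3 b1 b2 b3 c1 c2 c3 d1 d2 d3))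
    (f' := (2641/25000)*a1 + (1507/100000)*a2 + (-15137/100000)*a3 + (-1231/50000)*b1 + (357/25000)*b2 + (2641/50000)*b3 + (-1231/50000)*c1 + (357/25000)*c2 + (2641/50000)*c3 + (-297/3125)*d1 + (-119/6250)*d2 + (6513/50000)*d3)
    (g := (al14 a1 a2 a3 b1 b2 b3 c1 c2 c3 d1 d2 d3)*a2 + (be14 a1 a2 a3 b1 b2 b3 c1 c2 c3 d1 d2 d3)*d2)
    (e1 := (9/20000000)) (e2 := (27/1000000000000)) (F := (71/100000000)) (G := (11/1000000000000))
    (by rw [abs_le]; constructor <;> norm_num)
    (by rw [abs_le]; unfold al14 be14; constructor <;> linarith only [ha1l, ha1u, ha2l, ha2u, ha3l, ha3u, hb1l, hb1u, hb2l, hb2u, hb3l, hb3u, hc1l, hc1u, hc2l, hc2u, hc3l, hc3u, hd1l, hd1u, hd2l, hd2u, hd3l, hd3u])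
    (by rw [abs_le]; unfold al14 be14; constructor <;> linarith only [ha1l, ha1u, ha2l, ha2u, ha3l, ha3u, hb1l, hb1u, hb2l, hb2u, hb3l, hb3u, hc1l, hc1u, hc2l, hc2u, hc3l, hc3u, hd1l, hd1u, hd2l, hd2u, hd3l, hd3u])
    (by rw [abs_le]; constructor <;> linarith only [ha1l, ha1u, ha2l, ha2u, ha3l, ha3u, hb1l, hb1u, hb2l, hb2u, hb3l, hb3u, hc1l, hc1u, hc2l, hc2u, hc3l, hc3u, hd1l, hd1u, hd2l, hd2u, hd3l, hd3u])
    hg2
  have he2 : ((1000794330259/1000000000000) + al14 a1 a2 a3 b1 b2 b3 c1 c2 c3 d1 d2 d3)*((226328934322966122800000000000000000/306134241700818260119283571600499737) + a2) + ((-162983154703466030400000000000000000/289362864314031832820864927732648629) + b2) + (0 + c2) + ((39425586299/125000000000) + be14 a1 a2 a3 b1 b2 b3 c1 c2 c3 d1 d2 d3)*((-162983154703466030400000000000000000/289362864314031832820864927732648629) + d2) = (-88544254704060738953496224344248923580268322517782920070444810800000/88583881043152899902146492221012195651916719274330158971353667027910573)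 + ((1000794330259/1000000000000)*a2 + b2 + c2 + (39425586299/125000000000)*d2 + (226328934322966122800000000000000000/306134241700818260119283571600499737)*(al14 a1 a2 a3 b1 b2 b3 c1 c2 c3 d1 d2 d3) + (-162983154703466030400000000000000000/289362864314031832820864927732648629)*(be14 a1 a2 a3 b1 b2 b3 c1 c2 c3 d1 d2 d3)) + ((al14 a1 a2 a3 b1 b2 b3 c1 c2 c3 d1 d2 d3)*a2 + (be14 a1 a2 a3 b1 b2 b3 c1 c2 c3 d1 d2 d3)*d2) := by
    ring
  have hg3 : |(al14 a1 a2 a3 b1 b2 b3 c1 c2 c3 d1 d2 d3)*a3 + (be14 a1 a2 a3 b1 b2 b3 c1 c2 c3 d1 d2 d3)*d3| ≤ (11/1000000000000) := by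
    refine (abs_add_le _ _).trans ?_
    rw [abs_mul, abs_mul]
    have t1 := mul_le_mul hal ha3 (abs_nonneg _) (by norm_num)
    have t2 := mul_le_mul hbe hd3 (abs_nonneg _) (by norm_num)
    linarith only [t1, t2]
  have hc3 := comp_bound (X := (16848526994431563513056792211533296853136628222546568584836172161714592065408243023/88583881043152899902146492221012195651916719274330158971353667027910573000000000000)) (X' := (951/5000))
    (f := (1000794330259/1000000000000)*a3 + b3 + c3 + (39425586299/125000000000)*d3 + (-93865758299181739880716428399500263/306134241700818260119283571600499737)*(al14 a1 a2 a3 b1 b2 b3 c1 c2 c3 d1 d2 d3) + (-110637135685968167179135072267351371/289362864314031832820864927732648629)*(be14 a1 a2 a3 b1 b2 b3 c1 c2 c3 d1 d2 d3))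
    (f' := (-20669/50000)*a1 + (-447/20000)*a2 + (81719/100000)*a3 + (-8419/20000)*b1 + (-447/20000)*b2 + (79331/100000)*b3 + (-8419/20000)*c1 + (-447/20000)*c2 + (79331/100000)*c3 + (-14537/100000)*d1 + (97/6250)*d2 + (16149/50000)*d3)
    (g := (al14 a1 a2 a3 b1 b2 b3 c1 c2 c3 d1 d2 d3)*a3 + (be14 a1 a2 a3 b1 b2 b3 c1 c2 c3 d1 d2 d3)*d3)
    (e1 := (3/2000000)) (e2 := (11/500000000000)) (F := (43/10000000)) (G := (11/1000000000000))
    (by rw [abs_le]; constructor <;> norm_num)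
    (by rw [abs_le]; unfold al14 be14; constructor <;> linarith only [ha1l, ha1u, ha2l, ha2u, ha3l, ha3u, hb1l, hb1u, hb2l, hb2u, hb3l, hb3u, hc1l, hc1u, hc2l, hc2u, hc3l, hc3u, hd1l, hd1u, hd2l, hd2u, hd3l, hd3u])
    (by rw [abs_le]; unfold al14 be14; constructor <;> linarith only [ha1l, ha1u, ha2l, ha2u, ha3l, ha3u, hb1l, hb1u, hb2l, hb2u, hb3l, hb3u, hc1l, hc1u, hc2l, hc2u, hc3l, hc3u, hd1l, hd1u, hd2l, hd2u, hd3l, hd3u])
    (by rw [abs_le]; constructor <;> linarith only [ha1l, ha1u, ha2l, ha2u, ha3l, ha3u, hb1l, hb1u, hb2l, hb2u, hb3l, hb3u, hc1l, hc1u, hc2l, hc2u, hc3l, hc3u, hd1l, hd1u, hd2l, hd2u, hd3l, hd3u])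
    hg3
  have he3 : ((1000794330259/1000000000000) + al14 a1 a2 a3 b1 b2 b3 c1 c2 c3 d1 d2 d3)*((-93865758299181739880716428399500263/306134241700818260119283571600499737) + a3) + ((-110637135685968167179135072267351371/289362864314031832820864927732648629) + b3) + (1 + c3) + ((39425586299/125000000000) + be14 a1 a2 a3 b1 b2 b3 c1 c2 c3 d1 d2 d3)*((-110637135685968167179135072267351371/289362864314031832820864927732648629) + d3) = (16848526994431563513056792211533296853136628222546568584836172161714592065408243023/88583881043152899902146492221012195651916719274330158971353667027910573000000000000) + ((1000794330259/1000000000000)*a3 + b3 + c3 + (39425586299/125000000000)*d3 + (-93865758299181739880716428399500263/306134241700818260119283571600499737)*(al14 a1 a2 a3 b1 b2 b3 c1 c2 c3 d1 d2 d3) + (-110637135685968167179135072267351371/289362864314031832820864927732648629)*(be14 a1 a2 a3 b1 b2 b3 c1 c2 c3 d1 d2 d3)) + ((al14 a1 a2 a3 b1 b2 b3 c1 c2 c3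 d1 d2 d3)*a3 + (be14 a1 a2 a3 b1 b2 b3 c1 c2 c3 d1 d2 d3)*d3) := by
    ring
  rw [he1, he2, he3] at h1
  have hlin : (-1246627985062625645631225235009644942300021933860033116099068930400000/12654840149021842843163784603001742235988102753475736995907666718272939)*((1000794330259/1000000000000)*a1 + b1 + c1 + (39425586299/125000000000)*d1 + (-183528218127036517600000000000000000/306134241700818260119283571600499737)*(al14 a1 a2 a3 b1 b2 b3 c1 c2 c3 d1 d2 d3) + (-211959389351195114800000000000000000/289362864314031832820864927732648629)*(be14 a1 a2 a3 b1 b2 b3 c1 c2 c3 d1 d2 d3)) + (-88544254704060738953496224344248923580268322517782920070444810800000/88583881043152899902146492221012195651916719274330158971353667027910573)*((1000794330259/1000000000000)*a2 + b2 + c2 + (39425586299/125000000000)*d2 + (226328934322966122800000000000000000/306134241700818260119283571600499737)*(al14 a1 a2 a3 b1 b2 b3 c1 c2 c3 d1 d2 d3) + (-162983154703466030400000000000000000/289362864314031832820864927732648629)*(be14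 a1 a2 a3 b1 b2 b3 c1 c2 c3 d1 d2 d3)) + (16848526994431563513056792211533296853136628222546568584836172161714592065408243023/88583881043152899902146492221012195651916719274330158971353667027910573000000000000)*((1000794330259/1000000000000)*a3 + b3 + c3 + (39425586299/125000000000)*d3 + (-93865758299181739880716428399500263/306134241700818260119283571600499737)*(al14 a1 a2 a3 b1 b2 b3 c1 c2 c3 d1 d2 d3) + (-110637135685968167179135072267351371/289362864314031832820864927732648629)*(be14 a1 a2 a3 b1 b2 b3 c1 c2 c3 d1 d2 d3)) ≤ L14 a1 a2 a3 b1 b2 b3 c1 c2 c3 d1 d2 d3 + (3/12500000000000000000) := by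
    unfold L14 al14 be14; linarith only [ha1l, ha1u, ha2l, ha2u, ha3l, ha3u, hb1l, hb1u, hb2l, hb2u, hb3l, hb3u, hc1l, hc1u, hc2l, hc2u, hc3l, hc3u, hd1l, hd1u, hd2l, hd2u, hd3l, hd3u]
  have hq : q14 a1 a2 a3 b1 b2 b3 c1 c2 c3 d1 d2 d3 = (((20159/100000)*a1 + (-663/20000)*a2 + (-7059/20000)*a3 + (3/16)*b1 + (-663/20000)*b2 + (-999/2500)*b3 + (3/16)*c1 + (-663/20000)*c2 + (-999/2500)*c3 + (357/10000)*d1 + (667/20000)*d2 + (133/10000)*d3)^2 + 2*(-9851/100000)*((al14 a1 a2 a3 b1 b2 b3 c1 c2 c3 d1 d2 d3)*a1 + (be14 a1 a2 a3 b1 b2 b3 c1 c2 c3 d1 d2 d3)*d1)) + (((2641/25000)*a1 + (1507/100000)*a2 + (-15137/100000)*a3 + (-1231/50000)*b1 + (357/25000)*b2 + (2641/50000)*b3 + (-1231/50000)*c1 + (357/25000)*c2 + (2641/50000)*c3 + (-297/3125)*d1 + (-119/6250)*d2 + (6513/50000)*d3)^2 + 2*(-1/1000)*((al14 a1 a2 a3 b1 b2 b3 c1 c2 c3 d1 d2 d3)*a2 + (be14 a1 a2 a3 b1 b2 b3 c1 c2 c3 d1 d2 d3)*d2)) + (((-20669/50000)*a1 + (-447/20000)*a2 + (81719/100000)*a3 + (-8419/20000)*b1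 + (-447/20000)*b2 + (79331/100000)*b3 + (-8419/20000)*c1 + (-447/20000)*c2 + (79331/100000)*c3 + (-14537/100000)*d1 + (97/6250)*d2 + (16149/50000)*d3)^2 + 2*(951/5000)*((al14 a1 a2 a3 b1 b2 b3 c1 c2 c3 d1 d2 d3)*a3 + (be14 a1 a2 a3 b1 b2 b3 c1 c2 c3 d1 d2 d3)*d3)) := by
    unfold q14; ring
  constructor
  · rw [hq]; linarith only [h1, hc1, hc2, hc3, hlin]
  · rw [hq]
    have hs1 : ((20159/100000)*a1 + (-663/20000)*a2 + (-7059/20000)*a3 + (3/16)*b1 + (-663/20000)*b2 + (-999/2500)*b3 + (3/16)*c1 + (-663/20000)*c2 + (-999/2500)*c3 + (357/10000)*d1 + (667/20000)*d2 + (133/10000)*d3)^2 ≤ (1/250000000000) := by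
      have : |(20159/100000)*a1 + (-663/20000)*a2 + (-7059/20000)*a3 + (3/16)*b1 + (-663/20000)*b2 + (-999/2500)*b3 + (3/16)*c1 + (-663/20000)*c2 + (-999/2500)*c3 + (357/10000)*d1 + (667/20000)*d2 + (133/10000)*d3| ≤ (1/500000) := by rw [abs_le]; constructor <;> linarith only [ha1l, ha1u, ha2l, ha2u, ha3l, ha3u, hb1l, hb1u, hb2l, hb2u, hb3l, hb3u, hc1l, hc1u, hc2l, hc2u, hc3l, hc3u, hd1l, hd1u, hd2l, hd2u, hd3l, hd3u]
      have := sq_le_sq' (abs_le.1 this).1 (abs_le.1 this).2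
      linarith only [this]
    have hk1 := abs_le.1 hg1
    have hs2 : ((2641/25000)*a1 + (1507/100000)*a2 + (-15137/100000)*a3 + (-1231/50000)*b1 + (357/25000)*b2 + (2641/50000)*b3 + (-1231/50000)*c1 + (357/25000)*c2 + (2641/50000)*c3 + (-297/3125)*d1 + (-119/6250)*d2 + (6513/50000)*d3)^2 ≤ (5041/10000000000000000) := by
      have : |(2641/25000)*a1 + (1507/100000)*a2 + (-15137/100000)*a3 + (-1231/50000)*b1 + (357/25000)*b2 + (2641/50000)*b3 + (-1231/50000)*c1 + (357/25000)*c2 + (2641/50000)*c3 + (-297/3125)*d1 + (-119/6250)*d2 + (6513/50000)*d3| ≤ (71/100000000) := by rw [abs_le]; constructor <;> linarith only [ha1l, ha1u, ha2l, ha2u, ha3l, ha3u, hb1l, hb1u, hb2l, hb2u, hb3l, hb3u, hc1l, hc1u, hc2l, hc2u, hc3l, hc3u, hd1l, hd1u, hd2l, hd2u, hd3l, hd3u]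
      have := sq_le_sq' (abs_le.1 this).1 (abs_le.1 this).2
      linarith only [this]
    have hk2 := abs_le.1 hg2
    have hs3 : ((-20669/50000)*a1 + (-447/20000)*a2 + (81719/100000)*a3 + (-8419/20000)*b1 + (-447/20000)*b2 + (79331/100000)*b3 + (-8419/20000)*c1 + (-447/20000)*c2 + (79331/100000)*c3 + (-14537/100000)*d1 + (97/6250)*d2 + (16149/50000)*d3)^2 ≤ (1849/100000000000000) := by
      have : |(-20669/50000)*a1 + (-447/20000)*a2 + (81719/100000)*a3 + (-8419/20000)*b1 + (-447/20000)*b2 + (79331/100000)*b3 + (-8419/20000)*c1 + (-447/20000)*c2 + (79331/100000)*c3 + (-14537/100000)*d1 + (97/6250)*d2 + (16149/50000)*d3| ≤ (43/10000000) := by rw [abs_le]; constructor <;> linarith only [ha1l, ha1u, ha2l, ha2u, ha3l, ha3u, hb1l, hb1u, hb2l, hb2u, hb3l, hb3u, hc1l, hc1u, hc2l, hc2u, hc3l, hc3u, hd1l, hd1u, hd2l, hd2u, hd3l, hd3u]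
      have := sq_le_sq' (abs_le.1 this).1 (abs_le.1 this).2
      linarith only [this]
    have hk3 := abs_le.1 hg3
    linarith only [hs1, hs2, hs3, hk1.1, hk1.2, hk2.1, hk2.2, hk3.1, hk3.2]

end Pool.Agent.FatChain
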