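import Mathlib
import Pool.Agent.Lib.MP_0c5608_co.Cert
import Pool.Agent.Lib.MP_0c5608_co.Comp
/-! Machine-generated estimates for the locked fat 5-chain. -/

set_option autoImplicit false
set_option maxHeartbeats 4000000
set_option maxRecDepth 100000

namespace Pool.Agent.FatChain

theorem pair15 (a1 a2 a3 b1 b2 b3 c1 c2 c3 d1 d2 d3 e1 e2 e3 : ℝ)
    (ha1 : |a1| ≤ (1/1000000))
    (ha2 : |a2| ≤ (1/1000000))
    (ha3 : |a3| ≤ (1/1000000))
    (hb1 : |b1| ≤ (1/1000000))
    (hb2 : |b2| ≤ (1/1000000))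
    (hb3 : |b3| ≤ (1/1000000))
    (hc1 : |c1| ≤ (1/1000000))
    (hc2 : |c2| ≤ (1/1000000))
    (hc3 : |c3| ≤ (1/1000000))
    (hd1 : |d1| ≤ (1/1000000))
    (hd2 : |d2| ≤ (1/1000000))
    (hd3 : |d3| ≤ (1/1000000))
    (he1 : |e1| ≤ (1/1000000))
    (he2 : |e2| ≤ (1/1000000))
    (he3 : |e3| ≤ (1/1000000))
    (h : ∀ s t : ℝ, 0 ≤ s → s ≤ (10008/10000) → 0 ≤ t → t ≤ (10008/10000) →
      (45880708115763867885168956209/1000000000000000000000000000000) < (s*((-183528218127036517600000000000000000/306134241700818260119283571600499737) + a1) + ((211959389351195114800000000000000000/289362864314031832820864927732648629) + b1) + (0 + c1) + ((-211959389351195114800000000000000000/289362864314031832820864927732648629) + d1) + t*((183528218127036517600000000000000000/306134241700818260119283571600499737) + e1))^2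
        + (s*((226328934322966122800000000000000000/306134241700818260119283571600499737) + a2) + ((-162983154703466030400000000000000000/289362864314031832820864927732648629) + b2) + (0 + c2) + ((-162983154703466030400000000000000000/289362864314031832820864927732648629) + d2) + t*((226328934322966122800000000000000000/306134241700818260119283571600499737) + e2))^2
        + (s*((-93865758299181739880716428399500263/306134241700818260119283571600499737) + a3) + ((-110637135685968167179135072267351371/289362864314031832820864927732648629) + b3) + (1 + c3) + ((-110637135685968167179135072267351371/289362864314031832820864927732648629) + d3) + t*((-93865758299181739880716428399500263/306134241700818260119283571600499737) + e3))^2) :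
    0 < (61/62500000000000000) + 2*L15 a1 a2 a3 b1 b2 b3 c1 c2 c3 d1 d2 d3 e1 e2 e3 + q15 a1 a2 a3 b1 b2 b3 c1 c2 c3 d1 d2 d3 e1 e2 e3 ∧ q15 a1 a2 a3 b1 b2 b3 c1 c2 c3 d1 d2 d3 e1 e2 e3 ≤ (11/250000000000) := by
  obtain ⟨ha1l, ha1u⟩ := abs_le.1 ha1
  obtain ⟨ha2l, ha2u⟩ := abs_le.1 ha2
  obtain ⟨ha3l, ha3u⟩ := abs_le.1 ha3
  obtain ⟨hb1l, hb1u⟩ := abs_le.1 hb1
  obtain ⟨hb2l, hb2u⟩ := abs_le.1 hb2
  obtain ⟨hb3l, hb3u⟩ := abs_le.1 hb3
  obtain ⟨hc1l, hc1u⟩ := abs_le.1 hc1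
  obtain ⟨hc2l, hc2u⟩ := abs_le.1 hc2
  obtain ⟨hc3l, hc3u⟩ := abs_le.1 hc3
  obtain ⟨hd1l, hd1u⟩ := abs_le.1 hd1
  obtain ⟨hd2l, hd2u⟩ := abs_le.1 hd2
  obtain ⟨hd3l, hd3u⟩ := abs_le.1 hd3
  obtain ⟨he1l, he1u⟩ := abs_le.1 he1
  obtain ⟨he2l, he2u⟩ := abs_le.1 he2
  obtain ⟨he3l, he3u⟩ := abs_le.1 he3
  have hal : |al15 a1 a2 a3 b1 b2 b3 c1 c2 c3 d1 d2 d3 e1 e2 e3| ≤ (9/1250000) := by
    rw [abs_le]; unfold al15; constructor <;> linarith only [ha1l, ha1u, ha2l, ha2u, ha3l, ha3u, hb1l, hb1u, hb2l, hb2u, hb3l, hb3u, hc1l, hc1u, hc2l, hc2u, hc3l, hc3u, hd1l, hd1u, hd2l, hd2u, hd3l, hd3u, he1l, he1u, he2l, he2u, he3l, he3u]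
  have hbe : |be15 a1 a2 a3 b1 b2 b3 c1 c2 c3 d1 d2 d3 e1 e2 e3| ≤ (9/1250000) := by
    rw [abs_le]; unfold be15; constructor <;> linarith only [ha1l, ha1u, ha2l, ha2u, ha3l, ha3u, hb1l, hb1u, hb2l, hb2u, hb3l, hb3u, hc1l, hc1u, hc2l, hc2u, hc3l, hc3u, hd1l, hd1u, hd2l, hd2u, hd3l, hd3u, he1l, he1u, he2l, he2u, he3l, he3u]
  have hal2 := abs_le.1 hal
  have hbe2 := abs_le.1 hbe
  have h1 := h ((706358249547/1000000000000) + al15 a1 a2 a3 b1 b2 b3 c1 c2 c3 d1 d2 d3 e1 e2 e3) ((706358249547/1000000000000) + be15 a1 a2 a3 b1 b2 b3 c1 c2 c3 d1 d2 d3 e1 e2 e3) (by linarith only [hal2.1]) (by linarith only [hal2.2])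
    (by linarith only [hbe2.1]) (by linarith only [hbe2.2])
  have hg1 : |(al15 a1 a2 a3 b1 b2 b3 c1 c2 c3 d1 d2 d3 e1 e2 e3)*a1 + (be15 a1 a2 a3 b1 b2 b3 c1 c2 c3 d1 d2 d3 e1 e2 e3)*e1| ≤ (3/200000000000) := by
    refine (abs_add_le _ _).trans ?_
    rw [abs_mul, abs_mul]
    have t1 := mul_le_mul hal ha1 (abs_nonneg _) (by norm_num)
    have t2 := mul_le_mul hbe he1 (abs_nonneg _) (by norm_num)
    linarith only [t1, t2]
  have hc1 := comp_bound (X := 0) (X' := 0)
    (f := (706358249547/1000000000000)*a1 + b1 + c1 + d1 + (706358249547/1000000000000)*e1 + (-183528218127036517600000000000000000/306134241700818260119283571600499737)*(al15 a1 a2 a3 b1 b2 b3 c1 c2 c3 d1 d2 d3 e1 e2 e3) + (183528218127036517600000000000000000/306134241700818260119283571600499737)*(be15 a1 a2 a3 b1 b2 b3 c1 c2 c3 d1 d2 d3 e1 e2 e3))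
    (f' := (-163/12500)*a1 + (-1199/20000)*a2 + (-3597/20000)*a3 + (51/1250)*b1 + (51/1250)*c1 + (51/1250)*d1 + (-163/12500)*e1 + (1199/20000)*e2 + (3597/20000)*e3)
    (g := (al15 a1 a2 a3 b1 b2 b3 c1 c2 c3 d1 d2 d3 e1 e2 e3)*a1 + (be15 a1 a2 a3 b1 b2 b3 c1 c2 c3 d1 d2 d3 e1 e2 e3)*e1)
    (e1 := 0) (e2 := (3/125000000000)) (F := (1/1562500)) (G := (3/200000000000))
    (by rw [abs_le]; constructor <;> norm_num)
    (by rw [abs_le]; unfold al15 be15; constructor <;> linarith only [ha1l, ha1u, ha2l, ha2u, ha3l, ha3u, hb1l, hb1u, hb2l, hb2u, hb3l, hb3u, hc1l, hc1u, hc2l, hc2u, hc3l, hc3u, hd1l, hd1u, hd2l, hd2u, hd3l, hd3u, he1l, he1u, he2l, he2u, he3l, he3u])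
    (by rw [abs_le]; unfold al15 be15; constructor <;> linarith only [ha1l, ha1u, ha2l, ha2u, ha3l, ha3u, hb1l, hb1u, hb2l, hb2u, hb3l, hb3u, hc1l, hc1u, hc2l, hc2u, hc3l, hc3u, hd1l, hd1u, hd2l, hd2u, hd3l, hd3u, he1l, he1u, he2l, he2u, he3l, he3u])
    (by rw [abs_le]; constructor <;> linarith only [ha1l, ha1u, ha2l, ha2u, ha3l, ha3u, hb1l, hb1u, hb2l, hb2u, hb3l, hb3u, hc1l, hc1u, hc2l, hc2u, hc3l, hc3u, hd1l, hd1u, hd2l, hd2u, hd3l, hd3u, he1l, he1u, he2l, he2u, he3l, he3u])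
    hg1
  have he1 : ((706358249547/1000000000000) + al15 a1 a2 a3 b1 b2 b3 c1 c2 c3 d1 d2 d3 e1 e2 e3)*((-183528218127036517600000000000000000/306134241700818260119283571600499737) + a1) + ((211959389351195114800000000000000000/289362864314031832820864927732648629) + b1) + (0 + c1) + ((-211959389351195114800000000000000000/289362864314031832820864927732648629) + d1) + ((706358249547/1000000000000) + be15 a1 a2 a3 b1 b2 b3 c1 c2 c3 d1 d2 d3 e1 e2 e3)*((183528218127036517600000000000000000/306134241700818260119283571600499737) + e1) = 0 + ((706358249547/1000000000000)*a1 + b1 + c1 + d1 + (706358249547/1000000000000)*e1 + (-183528218127036517600000000000000000/306134241700818260119283571600499737)*(al15 a1 a2 a3 b1 b2 b3 c1 c2 c3 d1 d2 d3 e1 e2 e3) + (183528218127036517600000000000000000/306134241700818260119283571600499737)*(be15 a1 a2 a3 b1 b2 b3 c1 c2 c3 d1 d2 d3 e1 e2 e3)) + ((al15 a1 a2 a3 b1 b2 b3 c1 c2 c3 d1 d2 d3 e1 e2 e3)*a1 +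 (be15 a1 a2 a3 b1 b2 b3 c1 c2 c3 d1 d2 d3 e1 e2 e3)*e1) := by
    ring
  have hg2 : |(al15 a1 a2 a3 b1 b2 b3 c1 c2 c3 d1 d2 d3 e1 e2 e3)*a2 + (be15 a1 a2 a3 b1 b2 b3 c1 c2 c3 d1 d2 d3 e1 e2 e3)*e2| ≤ (3/200000000000) := by
    refine (abs_add_le _ _).trans ?_
    rw [abs_mul, abs_mul]
    have t1 := mul_le_mul hal ha2 (abs_nonneg _) (by norm_num)
    have t2 := mul_le_mul hbe he2 (abs_nonneg _) (by norm_num)
    linarith only [t1, t2]
  have hc2 := comp_bound (X := (-2422988703467824124632057055514567803529327090181874020118823642400000/29527960347717633300715497407004065217305573091443386323784555675970191)) (X' := (-4103/50000))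
    (f := (706358249547/1000000000000)*a2 + b2 + c2 + d2 + (706358249547/1000000000000)*e2 + (226328934322966122800000000000000000/306134241700818260119283571600499737)*(al15 a1 a2 a3 b1 b2 b3 c1 c2 c3 d1 d2 d3 e1 e2 e3) + (226328934322966122800000000000000000/306134241700818260119283571600499737)*(be15 a1 a2 a3 b1 b2 b3 c1 c2 c3 d1 d2 d3 e1 e2 e3))
    (f' := (4721/25000)*a2 + (18483/50000)*a3 + (5641/50000)*b2 + (29573/100000)*b3 + (5641/50000)*c2 + (29573/100000)*c3 + (5641/50000)*d2 + (29573/100000)*d3 + (4721/25000)*e2 + (18483/50000)*e3)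
    (g := (al15 a1 a2 a3 b1 b2 b3 c1 c2 c3 d1 d2 d3 e1 e2 e3)*a2 + (be15 a1 a2 a3 b1 b2 b3 c1 c2 c3 d1 d2 d3 e1 e2 e3)*e2)
    (e1 := (13/5000000)) (e2 := (19/500000000000)) (F := (3/1250000)) (G := (3/200000000000))
    (by rw [abs_le]; constructor <;> norm_num)
    (by rw [abs_le]; unfold al15 be15; constructor <;> linarith only [ha1l, ha1u, ha2l, ha2u, ha3l, ha3u, hb1l, hb1u, hb2l, hb2u, hb3l, hb3u, hc1l, hc1u, hc2l, hc2u, hc3l, hc3u, hd1l, hd1u, hd2l, hd2u, hd3l, hd3u, he1l, he1u, he2l, he2u, he3l, he3u])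
    (by rw [abs_le]; unfold al15 be15; constructor <;> linarith only [ha1l, ha1u, ha2l, ha2u, ha3l, ha3u, hb1l, hb1u, hb2l, hb2u, hb3l, hb3u, hc1l, hc1u, hc2l, hc2u, hc3l, hc3u, hd1l, hd1u, hd2l, hd2u, hd3l, hd3u, he1l, he1u, he2l, he2u, he3l, he3u])
    (by rw [abs_le]; constructor <;> linarith only [ha1l, ha1u, ha2l, ha2u, ha3l, ha3u, hb1l, hb1u, hb2l, hb2u, hb3l, hb3u, hc1l, hc1u, hc2l, hc2u, hc3l, hc3u, hd1l, hd1u, hd2l, hd2u, hd3l, hd3u, he1l, he1u, he2l, he2u, he3l, he3u])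
    hg2
  have he2 : ((706358249547/1000000000000) + al15 a1 a2 a3 b1 b2 b3 c1 c2 c3 d1 d2 d3 e1 e2 e3)*((226328934322966122800000000000000000/306134241700818260119283571600499737) + a2) + ((-162983154703466030400000000000000000/289362864314031832820864927732648629) + b2) + (0 + c2) + ((-162983154703466030400000000000000000/289362864314031832820864927732648629) + d2) + ((706358249547/1000000000000) + be15 a1 a2 a3 b1 b2 b3 c1 c2 c3 d1 d2 d3 e1 e2 e3)*((226328934322966122800000000000000000/306134241700818260119283571600499737) + e2) = (-2422988703467824124632057055514567803529327090181874020118823642400000/29527960347717633300715497407004065217305573091443386323784555675970191) + ((706358249547/1000000000000)*a2 + b2 + c2 + d2 + (706358249547/1000000000000)*e2 + (226328934322966122800000000000000000/306134241700818260119283571600499737)*(al15 a1 a2 a3 b1 b2 b3 c1 c2 c3 d1 d2 d3 e1 e2 e3) + (226328934322966122800000000000000000/306134241700818260119283571600499737)*(be15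 a1 a2 a3 b1 b2 b3 c1 c2 c3 d1 d2 d3 e1 e2 e3)) + ((al15 a1 a2 a3 b1 b2 b3 c1 c2 c3 d1 d2 d3 e1 e2 e3)*a2 + (be15 a1 a2 a3 b1 b2 b3 c1 c2 c3 d1 d2 d3 e1 e2 e3)*e2) := by
    ring
  have hg3 : |(al15 a1 a2 a3 b1 b2 b3 c1 c2 c3 d1 d2 d3 e1 e2 e3)*a3 + (be15 a1 a2 a3 b1 b2 b3 c1 c2 c3 d1 d2 d3 e1 e2 e3)*e3| ≤ (3/200000000000) := by
    refine (abs_add_le _ _).trans ?_
    rw [abs_mul, abs_mul]
    have t1 := mul_le_mul hal ha3 (abs_nonneg _) (by norm_num)
    have t2 := mul_le_mul hbe he3 (abs_nonneg _) (by norm_num)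
    linarith only [t1, t2]
  have hc3 := comp_bound (X := (-2921152830727678262096501301394837007292570390555304787004628366413246054288746523/14763980173858816650357748703502032608652786545721693161892277837985095500000000000)) (X' := (-9893/50000))
    (f := (706358249547/1000000000000)*a3 + b3 + c3 + d3 + (706358249547/1000000000000)*e3 + (-93865758299181739880716428399500263/306134241700818260119283571600499737)*(al15 a1 a2 a3 b1 b2 b3 c1 c2 c3 d1 d2 d3 e1 e2 e3) + (-93865758299181739880716428399500263/306134241700818260119283571600499737)*(be15 a1 a2 a3 b1 b2 b3 c1 c2 c3 d1 d2 d3 e1 e2 e3))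
    (f' := (21463/100000)*a2 + (11061/20000)*a3 + (18397/50000)*b2 + (17547/20000)*b3 + (18397/50000)*c2 + (17547/20000)*c3 + (18397/50000)*d2 + (17547/20000)*d3 + (21463/100000)*e2 + (11061/20000)*e3)
    (g := (al15 a1 a2 a3 b1 b2 b3 c1 c2 c3 d1 d2 d3 e1 e2 e3)*a3 + (be15 a1 a2 a3 b1 b2 b3 c1 c2 c3 d1 d2 d3 e1 e2 e3)*e3)
    (e1 := (33/10000000)) (e2 := (3/200000000000)) (F := (27/5000000)) (G := (3/200000000000))
    (by rw [abs_le]; constructor <;> norm_num)
    (by rw [abs_le]; unfold al15 be15; constructor <;> linarith only [ha1l, ha1u, ha2l, ha2u, ha3l, ha3u, hb1l, hb1u, hb2l, hb2u, hb3l, hb3u, hc1l, hc1u, hc2l, hc2u, hc3l, hc3u, hd1l, hd1u, hd2l, hd2u, hd3l, hd3u, he1l, he1u, he2l, he2u, he3l, he3u])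
    (by rw [abs_le]; unfold al15 be15; constructor <;> linarith only [ha1l, ha1u, ha2l, ha2u, ha3l, ha3u, hb1l, hb1u, hb2l, hb2u, hb3l, hb3u, hc1l, hc1u, hc2l, hc2u, hc3l, hc3u, hd1l, hd1u, hd2l, hd2u, hd3l, hd3u, he1l, he1u, he2l, he2u, he3l, he3u])
    (by rw [abs_le]; constructor <;> linarith only [ha1l, ha1u, ha2l, ha2u, ha3l, ha3u, hb1l, hb1u, hb2l, hb2u, hb3l, hb3u, hc1l, hc1u, hc2l, hc2u, hc3l, hc3u, hd1l, hd1u, hd2l, hd2u, hd3l, hd3u, he1l, he1u, he2l, he2u, he3l, he3u])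
    hg3
  have he3 : ((706358249547/1000000000000) + al15 a1 a2 a3 b1 b2 b3 c1 c2 c3 d1 d2 d3 e1 e2 e3)*((-93865758299181739880716428399500263/306134241700818260119283571600499737) + a3) + ((-110637135685968167179135072267351371/289362864314031832820864927732648629) + b3) + (1 + c3) + ((-110637135685968167179135072267351371/289362864314031832820864927732648629) + d3) + ((706358249547/1000000000000) + be15 a1 a2 a3 b1 b2 b3 c1 c2 c3 d1 d2 d3 e1 e2 e3)*((-93865758299181739880716428399500263/306134241700818260119283571600499737) + e3) = (-2921152830727678262096501301394837007292570390555304787004628366413246054288746523/14763980173858816650357748703502032608652786545721693161892277837985095500000000000) + ((706358249547/1000000000000)*a3 + b3 + c3 + d3 + (706358249547/1000000000000)*e3 + (-93865758299181739880716428399500263/306134241700818260119283571600499737)*(al15 a1 a2 a3 b1 b2 b3 c1 c2 c3 d1 d2 d3 e1 e2 e3) + (-93865758299181739880716428399500263/306134241700818260119283571600499737)*(be15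 a1 a2 a3 b1 b2 b3 c1 c2 c3 d1 d2 d3 e1 e2 e3)) + ((al15 a1 a2 a3 b1 b2 b3 c1 c2 c3 d1 d2 d3 e1 e2 e3)*a3 + (be15 a1 a2 a3 b1 b2 b3 c1 c2 c3 d1 d2 d3 e1 e2 e3)*e3) := by
    ring
  rw [he1, he2, he3] at h1
  have hlin : 0*((706358249547/1000000000000)*a1 + b1 + c1 + d1 + (706358249547/1000000000000)*e1 + (-183528218127036517600000000000000000/306134241700818260119283571600499737)*(al15 a1 a2 a3 b1 b2 b3 c1 c2 c3 d1 d2 d3 e1 e2 e3) + (183528218127036517600000000000000000/306134241700818260119283571600499737)*(be15 a1 a2 a3 b1 b2 b3 c1 c2 c3 d1 d2 d3 e1 e2 e3)) + (-2422988703467824124632057055514567803529327090181874020118823642400000/29527960347717633300715497407004065217305573091443386323784555675970191)*((706358249547/1000000000000)*a2 + b2 + c2 + d2 + (706358249547/1000000000000)*e2 + (226328934322966122800000000000000000/306134241700818260119283571600499737)*(al15 a1 a2 a3 b1 b2 b3 c1 c2 c3 d1 d2 d3 e1 e2 e3) + (226328934322966122800000000000000000/306134241700818260119283571600499737)*(be15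 a1 a2 a3 b1 b2 b3 c1 c2 c3 d1 d2 d3 e1 e2 e3)) + (-2921152830727678262096501301394837007292570390555304787004628366413246054288746523/14763980173858816650357748703502032608652786545721693161892277837985095500000000000)*((706358249547/1000000000000)*a3 + b3 + c3 + d3 + (706358249547/1000000000000)*e3 + (-93865758299181739880716428399500263/306134241700818260119283571600499737)*(al15 a1 a2 a3 b1 b2 b3 c1 c2 c3 d1 d2 d3 e1 e2 e3) + (-93865758299181739880716428399500263/306134241700818260119283571600499737)*(be15 a1 a2 a3 b1 b2 b3 c1 c2 c3 d1 d2 d3 e1 e2 e3)) ≤ L15 a1 a2 a3 b1 b2 b3 c1 c2 c3 d1 d2 d3 e1 e2 e3 + (23/100000000000000000000) := by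
    unfold L15 al15 be15; linarith only [ha1l, ha1u, ha2l, ha2u, ha3l, ha3u, hb1l, hb1u, hb2l, hb2u, hb3l, hb3u, hc1l, hc1u, hc2l, hc2u, hc3l, hc3u, hd1l, hd1u, hd2l, hd2u, hd3l, hd3u, he1l, he1u, he2l, he2u, he3l, he3u]
  have hq : q15 a1 a2 a3 b1 b2 b3 c1 c2 c3 d1 d2 d3 e1 e2 e3 = (((-163/12500)*a1 + (-1199/20000)*a2 + (-3597/20000)*a3 + (51/1250)*b1 + (51/1250)*c1 + (51/1250)*d1 + (-163/12500)*e1 + (1199/20000)*e2 + (3597/20000)*e3)^2 + 2*0*((al15 a1 a2 a3 b1 b2 b3 c1 c2 c3 d1 d2 d3 e1 e2 e3)*a1 + (be15 a1 a2 a3 b1 b2 b3 c1 c2 c3 d1 d2 d3 e1 e2 e3)*e1)) + (((4721/25000)*a2 + (18483/50000)*a3 + (5641/50000)*b2 + (29573/100000)*b3 + (5641/50000)*c2 + (29573/100000)*c3 + (5641/50000)*d2 + (29573/100000)*d3 + (4721/25000)*e2 + (18483/50000)*e3)^2 + 2*(-4103/50000)*((al15 a1 a2 a3 b1 b2 b3 c1 c2 c3 d1 d2 d3 e1 e2 e3)*a2 + (be15 a1 a2 a3 b1 b2 b3 c1 c2 c3 d1 d2 d3 e1 e2 e3)*e2)) + (((21463/100000)*a2 + (11061/20000)*a3 + (18397/50000)*b2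 + (17547/20000)*b3 + (18397/50000)*c2 + (17547/20000)*c3 + (18397/50000)*d2 + (17547/20000)*d3 + (21463/100000)*e2 + (11061/20000)*e3)^2 + 2*(-9893/50000)*((al15 a1 a2 a3 b1 b2 b3 c1 c2 c3 d1 d2 d3 e1 e2 e3)*a3 + (be15 a1 a2 a3 b1 b2 b3 c1 c2 c3 d1 d2 d3 e1 e2 e3)*e3)) := by
    unfold q15; ring
  constructor
  · rw [hq]; linarith only [h1, hc1, hc2, hc3, hlin]
  · rw [hq]
    have hs1 : ((-163/12500)*a1 + (-1199/20000)*a2 + (-3597/20000)*a3 + (51/1250)*b1 + (51/1250)*c1 + (51/1250)*d1 + (-163/12500)*e1 + (1199/20000)*e2 + (3597/20000)*e3)^2 ≤ (1/2441406250000) := by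
      have : |(-163/12500)*a1 + (-1199/20000)*a2 + (-3597/20000)*a3 + (51/1250)*b1 + (51/1250)*c1 + (51/1250)*d1 + (-163/12500)*e1 + (1199/20000)*e2 + (3597/20000)*e3| ≤ (1/1562500) := by rw [abs_le]; constructor <;> linarith only [ha1l, ha1u, ha2l, ha2u, ha3l, ha3u, hb1l, hb1u, hb2l, hb2u, hb3l, hb3u, hc1l, hc1u, hc2l, hc2u, hc3l, hc3u, hd1l, hd1u, hd2l, hd2u, hd3l, hd3u, he1l, he1u, he2l, he2u, he3l, he3u]
      have := sq_le_sq' (abs_le.1 this).1 (abs_le.1 this).2
      linarith only [this]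
    have hk1 := abs_le.1 hg1
    have hs2 : ((4721/25000)*a2 + (18483/50000)*a3 + (5641/50000)*b2 + (29573/100000)*b3 + (5641/50000)*c2 + (29573/100000)*c3 + (5641/50000)*d2 + (29573/100000)*d3 + (4721/25000)*e2 + (18483/50000)*e3)^2 ≤ (9/1562500000000) := by
      have : |(4721/25000)*a2 + (18483/50000)*a3 + (5641/50000)*b2 + (29573/100000)*b3 + (5641/50000)*c2 + (29573/100000)*c3 + (5641/50000)*d2 + (29573/100000)*d3 + (4721/25000)*e2 + (18483/50000)*e3| ≤ (3/1250000) := by rw [abs_le]; constructor <;> linarith only [ha1l, ha1u, ha2l, ha2u, ha3l, ha3u, hb1l, hb1u, hb2l, hb2u, hb3l, hb3u, hc1l, hc1u, hc2l, hc2u, hc3l, hc3u, hd1l, hd1u, hd2l, hd2u, hd3l, hd3u, he1l, he1u, he2l, he2u, he3l, he3u]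
      have := sq_le_sq' (abs_le.1 this).1 (abs_le.1 this).2
      linarith only [this]
    have hk2 := abs_le.1 hg2
    have hs3 : ((21463/100000)*a2 + (11061/20000)*a3 + (18397/50000)*b2 + (17547/20000)*b3 + (18397/50000)*c2 + (17547/20000)*c3 + (18397/50000)*d2 + (17547/20000)*d3 + (21463/100000)*e2 + (11061/20000)*e3)^2 ≤ (729/25000000000000) := by
      have : |(21463/100000)*a2 + (11061/20000)*a3 + (18397/50000)*b2 + (17547/20000)*b3 + (18397/50000)*c2 + (17547/20000)*c3 + (18397/50000)*d2 + (17547/20000)*d3 + (21463/100000)*e2 + (11061/20000)*e3| ≤ (27/5000000) := by rw [abs_le]; constructor <;> linarith only [ha1l, ha1u, ha2l, ha2u, ha3l, ha3u, hb1l, hb1u, hb2l, hb2u, hb3l, hb3u, hc1l, hc1u, hc2l, hc2u, hc3l, hc3u, hd1l, hd1u, hd2l, hd2u, hd3l, hd3u, he1l, he1u, he2l, he2u, he3l, he3u]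
      have := sq_le_sq' (abs_le.1 this).1 (abs_le.1 this).2
      linarith only [this]
    have hk3 := abs_le.1 hg3
    linarith only [hs1, hs2, hs3, hk1.1, hk1.2, hk2.1, hk2.2, hk3.1, hk3.2]

end Pool.Agent.FatChain
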