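import Mathlib
import Pool.Agent.Lib.MP_0c5608_co.Pair13
import Pool.Agent.Lib.MP_0c5608_co.Pair14
import Pool.Agent.Lib.MP_0c5608_co.Pair15
/-! Machine-generated estimates for the locked fat 5-chain. -/

set_option autoImplicit false
set_option maxHeartbeats 4000000
set_option maxRecDepth 100000

namespace Pool.Agent.FatChain

theorem trap (a1 a2 a3 b1 b2 b3 c1 c2 c3 d1 d2 d3 e1 e2 e3 : ℝ)
    (hS : a1^2 + a2^2 + a3^2 + b1^2 + b2^2 + b3^2 + c1^2 + c2^2 + c3^2 + d1^2 + d2^2 + d3^2 + e1^2 + e2^2 + e3^2 ≤ 1/1000000000000)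
    (u1 : ((-183528218127036517600000000000000000/306134241700818260119283571600499737) + a1)^2 + ((226328934322966122800000000000000000/306134241700818260119283571600499737) + a2)^2 + ((-93865758299181739880716428399500263/306134241700818260119283571600499737) + a3)^2 = 1)
    (u2 : ((211959389351195114800000000000000000/289362864314031832820864927732648629) + b1)^2 + ((-162983154703466030400000000000000000/289362864314031832820864927732648629) + b2)^2 + ((-110637135685968167179135072267351371/289362864314031832820864927732648629) + b3)^2 = 1)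
    (u3 : (0 + c1)^2 + (0 + c2)^2 + (1 + c3)^2 = 1)
    (u4 : ((-211959389351195114800000000000000000/289362864314031832820864927732648629) + d1)^2 + ((-162983154703466030400000000000000000/289362864314031832820864927732648629) + d2)^2 + ((-110637135685968167179135072267351371/289362864314031832820864927732648629) + d3)^2 = 1)
    (u5 : ((183528218127036517600000000000000000/306134241700818260119283571600499737) + e1)^2 + ((226328934322966122800000000000000000/306134241700818260119283571600499737) + e2)^2 + ((-93865758299181739880716428399500263/306134241700818260119283571600499737) + e3)^2 = 1)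
    (r1 : (((226328934322966122800000000000000000/306134241700818260119283571600499737) + a2)*(-183528218127036517600000000000000000/306134241700818260119283571600499737) - ((-183528218127036517600000000000000000/306134241700818260119283571600499737) + a1)*(226328934322966122800000000000000000/306134241700818260119283571600499737)) + (((-162983154703466030400000000000000000/289362864314031832820864927732648629) + b2)*(211959389351195114800000000000000000/289362864314031832820864927732648629) - ((211959389351195114800000000000000000/289362864314031832820864927732648629) + b1)*(-162983154703466030400000000000000000/289362864314031832820864927732648629)) + ((0 + c2)*0 - (0 + c1)*0) + (((-162983154703466030400000000000000000/289362864314031832820864927732648629) + d2)*(-211959389351195114800000000000000000/289362864314031832820864927732648629) - ((-211959389351195114800000000000000000/289362864314031832820864927732648629) + d1)*(-162983154703466030400000000000000000/289362864314031832820864927732648629))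 + (((226328934322966122800000000000000000/306134241700818260119283571600499737) + e2)*(183528218127036517600000000000000000/306134241700818260119283571600499737) - ((183528218127036517600000000000000000/306134241700818260119283571600499737) + e1)*(226328934322966122800000000000000000/306134241700818260119283571600499737)) = 0)
    (r2 : (((-93865758299181739880716428399500263/306134241700818260119283571600499737) + a3)*(226328934322966122800000000000000000/306134241700818260119283571600499737) - ((226328934322966122800000000000000000/306134241700818260119283571600499737) + a2)*(-93865758299181739880716428399500263/306134241700818260119283571600499737)) + (((-110637135685968167179135072267351371/289362864314031832820864927732648629) + b3)*(-162983154703466030400000000000000000/289362864314031832820864927732648629) - ((-162983154703466030400000000000000000/289362864314031832820864927732648629) + b2)*(-110637135685968167179135072267351371/289362864314031832820864927732648629))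 + ((1 + c3)*0 - (0 + c2)*1) + (((-110637135685968167179135072267351371/289362864314031832820864927732648629) + d3)*(-162983154703466030400000000000000000/289362864314031832820864927732648629) - ((-162983154703466030400000000000000000/289362864314031832820864927732648629) + d2)*(-110637135685968167179135072267351371/289362864314031832820864927732648629)) + (((-93865758299181739880716428399500263/306134241700818260119283571600499737) + e3)*(226328934322966122800000000000000000/306134241700818260119283571600499737) - ((226328934322966122800000000000000000/306134241700818260119283571600499737) + e2)*(-93865758299181739880716428399500263/306134241700818260119283571600499737)) = 0)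
    (r3 : (((-183528218127036517600000000000000000/306134241700818260119283571600499737) + a1)*(-93865758299181739880716428399500263/306134241700818260119283571600499737) - ((-93865758299181739880716428399500263/306134241700818260119283571600499737) + a3)*(-183528218127036517600000000000000000/306134241700818260119283571600499737)) + (((211959389351195114800000000000000000/289362864314031832820864927732648629) + b1)*(-110637135685968167179135072267351371/289362864314031832820864927732648629) - ((-110637135685968167179135072267351371/289362864314031832820864927732648629) + b3)*(211959389351195114800000000000000000/289362864314031832820864927732648629)) + ((0 + c1)*1 - (1 + c3)*0) + (((-211959389351195114800000000000000000/289362864314031832820864927732648629) + d1)*(-110637135685968167179135072267351371/289362864314031832820864927732648629) - ((-110637135685968167179135072267351371/289362864314031832820864927732648629) + d3)*(-211959389351195114800000000000000000/289362864314031832820864927732648629))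 + (((183528218127036517600000000000000000/306134241700818260119283571600499737) + e1)*(-93865758299181739880716428399500263/306134241700818260119283571600499737) - ((-93865758299181739880716428399500263/306134241700818260119283571600499737) + e3)*(183528218127036517600000000000000000/306134241700818260119283571600499737)) = 0)
    (h13 : ∀ s t : ℝ, 0 ≤ s → s ≤ (10008/10000) → 0 ≤ t → t ≤ 1 →
      (45880708115763867885168956209/1000000000000000000000000000000) < (s*((-183528218127036517600000000000000000/306134241700818260119283571600499737) + a1) + ((211959389351195114800000000000000000/289362864314031832820864927732648629) + b1) + t*(0 + c1))^2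
        + (s*((226328934322966122800000000000000000/306134241700818260119283571600499737) + a2) + ((-162983154703466030400000000000000000/289362864314031832820864927732648629) + b2) + t*(0 + c2))^2
        + (s*((-93865758299181739880716428399500263/306134241700818260119283571600499737) + a3) + ((-110637135685968167179135072267351371/289362864314031832820864927732648629) + b3) + t*(1 + c3))^2)
    (h14 : ∀ s t : ℝ, 0 ≤ s → s ≤ (10008/10000) → 0 ≤ t → t ≤ 1 →
      (45880708115763867885168956209/1000000000000000000000000000000) < (s*((-183528218127036517600000000000000000/306134241700818260119283571600499737) + a1) + ((211959389351195114800000000000000000/289362864314031832820864927732648629) + b1) + (0 + c1) + t*((-211959389351195114800000000000000000/289362864314031832820864927732648629) + d1))^2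
        + (s*((226328934322966122800000000000000000/306134241700818260119283571600499737) + a2) + ((-162983154703466030400000000000000000/289362864314031832820864927732648629) + b2) + (0 + c2) + t*((-162983154703466030400000000000000000/289362864314031832820864927732648629) + d2))^2
        + (s*((-93865758299181739880716428399500263/306134241700818260119283571600499737) + a3) + ((-110637135685968167179135072267351371/289362864314031832820864927732648629) + b3) + (1 + c3) + t*((-110637135685968167179135072267351371/289362864314031832820864927732648629) + d3))^2)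
    (h15 : ∀ s t : ℝ, 0 ≤ s → s ≤ (10008/10000) → 0 ≤ t → t ≤ (10008/10000) →
      (45880708115763867885168956209/1000000000000000000000000000000) < (s*((-183528218127036517600000000000000000/306134241700818260119283571600499737) + a1) + ((211959389351195114800000000000000000/289362864314031832820864927732648629) + b1) + (0 + c1) + ((-211959389351195114800000000000000000/289362864314031832820864927732648629) + d1) + t*((183528218127036517600000000000000000/306134241700818260119283571600499737) + e1))^2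
        + (s*((226328934322966122800000000000000000/306134241700818260119283571600499737) + a2) + ((-162983154703466030400000000000000000/289362864314031832820864927732648629) + b2) + (0 + c2) + ((-162983154703466030400000000000000000/289362864314031832820864927732648629) + d2) + t*((226328934322966122800000000000000000/306134241700818260119283571600499737) + e2))^2
        + (s*((-93865758299181739880716428399500263/306134241700818260119283571600499737) + a3) + ((-110637135685968167179135072267351371/289362864314031832820864927732648629) + b3) + (1 + c3) + ((-110637135685968167179135072267351371/289362864314031832820864927732648629) + d3) + t*((-93865758299181739880716428399500263/306134241700818260119283571600499737) + e3))^2)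
    (h25 : ∀ s t : ℝ, 0 ≤ s → s ≤ 1 → 0 ≤ t → t ≤ (10008/10000) →
      (45880708115763867885168956209/1000000000000000000000000000000) < (s*((211959389351195114800000000000000000/289362864314031832820864927732648629) + b1) + (0 + c1) + ((-211959389351195114800000000000000000/289362864314031832820864927732648629) + d1) + t*((183528218127036517600000000000000000/306134241700818260119283571600499737) + e1))^2
        + (s*((-162983154703466030400000000000000000/289362864314031832820864927732648629) + b2) + (0 + c2) + ((-162983154703466030400000000000000000/289362864314031832820864927732648629) + d2) + t*((226328934322966122800000000000000000/306134241700818260119283571600499737) + e2))^2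
        + (s*((-110637135685968167179135072267351371/289362864314031832820864927732648629) + b3) + (1 + c3) + ((-110637135685968167179135072267351371/289362864314031832820864927732648629) + d3) + t*((-93865758299181739880716428399500263/306134241700818260119283571600499737) + e3))^2)
    (h35 : ∀ s t : ℝ, 0 ≤ s → s ≤ 1 → 0 ≤ t → t ≤ (10008/10000) →
      (45880708115763867885168956209/1000000000000000000000000000000) < (s*(0 + c1) + ((-211959389351195114800000000000000000/289362864314031832820864927732648629) + d1) + t*((183528218127036517600000000000000000/306134241700818260119283571600499737) + e1))^2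
        + (s*(0 + c2) + ((-162983154703466030400000000000000000/289362864314031832820864927732648629) + d2) + t*((226328934322966122800000000000000000/306134241700818260119283571600499737) + e2))^2
        + (s*(1 + c3) + ((-110637135685968167179135072267351371/289362864314031832820864927732648629) + d3) + t*((-93865758299181739880716428399500263/306134241700818260119283571600499737) + e3))^2)
    :
    a1^2 + a2^2 + a3^2 + b1^2 + b2^2 + b3^2 + c1^2 + c2^2 + c3^2 + d1^2 + d2^2 + d3^2 + e1^2 + e2^2 + e3^2 ≤ 1/2000000000000 := by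
  have ha1 : |a1| ≤ (1/1000000) := by
    apply abs_le_of_sq_le_sq _ (by norm_num)
    linarith only [hS, sq_nonneg a2, sq_nonneg a3, sq_nonneg b1, sq_nonneg b2, sq_nonneg b3, sq_nonneg c1, sq_nonneg c2, sq_nonneg c3, sq_nonneg d1, sq_nonneg d2, sq_nonneg d3, sq_nonneg e1, sq_nonneg e2, sq_nonneg e3]
  have ha2 : |a2| ≤ (1/1000000) := by
    apply abs_le_of_sq_le_sq _ (by norm_num)
    linarith only [hS, sq_nonneg a1, sq_nonneg a3, sq_nonneg b1, sq_nonneg b2, sq_nonneg b3, sq_nonneg c1, sq_nonneg c2, sq_nonneg c3, sq_nonneg d1, sq_nonneg d2, sq_nonneg d3, sq_nonneg e1, sq_nonneg e2, sq_nonneg e3]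
  have ha3 : |a3| ≤ (1/1000000) := by
    apply abs_le_of_sq_le_sq _ (by norm_num)
    linarith only [hS, sq_nonneg a1, sq_nonneg a2, sq_nonneg b1, sq_nonneg b2, sq_nonneg b3, sq_nonneg c1, sq_nonneg c2, sq_nonneg c3, sq_nonneg d1, sq_nonneg d2, sq_nonneg d3, sq_nonneg e1, sq_nonneg e2, sq_nonneg e3]
  have hb1 : |b1| ≤ (1/1000000) := by
    apply abs_le_of_sq_le_sq _ (by norm_num)
    linarith only [hS, sq_nonneg a1, sq_nonneg a2, sq_nonneg a3, sq_nonneg b2, sq_nonneg b3, sq_nonneg c1, sq_nonneg c2, sq_nonneg c3, sq_nonneg d1, sq_nonneg d2, sq_nonneg d3, sq_nonneg e1, sq_nonneg e2, sq_nonneg e3]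
  have hb2 : |b2| ≤ (1/1000000) := by
    apply abs_le_of_sq_le_sq _ (by norm_num)
    linarith only [hS, sq_nonneg a1, sq_nonneg a2, sq_nonneg a3, sq_nonneg b1, sq_nonneg b3, sq_nonneg c1, sq_nonneg c2, sq_nonneg c3, sq_nonneg d1, sq_nonneg d2, sq_nonneg d3, sq_nonneg e1, sq_nonneg e2, sq_nonneg e3]
  have hb3 : |b3| ≤ (1/1000000) := by
    apply abs_le_of_sq_le_sq _ (by norm_num)
    linarith only [hS, sq_nonneg a1, sq_nonneg a2, sq_nonneg a3, sq_nonneg b1, sq_nonneg b2, sq_nonneg c1, sq_nonneg c2, sq_nonneg c3, sq_nonneg d1, sq_nonneg d2, sq_nonneg d3, sq_nonneg e1, sq_nonneg e2, sq_nonneg e3]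
  have hc1 : |c1| ≤ (1/1000000) := by
    apply abs_le_of_sq_le_sq _ (by norm_num)
    linarith only [hS, sq_nonneg a1, sq_nonneg a2, sq_nonneg a3, sq_nonneg b1, sq_nonneg b2, sq_nonneg b3, sq_nonneg c2, sq_nonneg c3, sq_nonneg d1, sq_nonneg d2, sq_nonneg d3, sq_nonneg e1, sq_nonneg e2, sq_nonneg e3]
  have hc2 : |c2| ≤ (1/1000000) := by
    apply abs_le_of_sq_le_sq _ (by norm_num)
    linarith only [hS, sq_nonneg a1, sq_nonneg a2, sq_nonneg a3, sq_nonneg b1, sq_nonneg b2, sq_nonneg b3, sq_nonneg c1, sq_nonneg c3, sq_nonneg d1, sq_nonneg d2, sq_nonneg d3, sq_nonneg e1, sq_nonneg e2, sq_nonneg e3]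
  have hc3 : |c3| ≤ (1/1000000) := by
    apply abs_le_of_sq_le_sq _ (by norm_num)
    linarith only [hS, sq_nonneg a1, sq_nonneg a2, sq_nonneg a3, sq_nonneg b1, sq_nonneg b2, sq_nonneg b3, sq_nonneg c1, sq_nonneg c2, sq_nonneg d1, sq_nonneg d2, sq_nonneg d3, sq_nonneg e1, sq_nonneg e2, sq_nonneg e3]
  have hd1 : |d1| ≤ (1/1000000) := by
    apply abs_le_of_sq_le_sq _ (by norm_num)
    linarith only [hS, sq_nonneg a1, sq_nonneg a2, sq_nonneg a3, sq_nonneg b1, sq_nonneg b2, sq_nonneg b3, sq_nonneg c1, sq_nonneg c2, sq_nonneg c3, sq_nonneg d2, sq_nonneg d3, sq_nonneg e1, sq_nonneg e2, sq_nonneg e3]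
  have hd2 : |d2| ≤ (1/1000000) := by
    apply abs_le_of_sq_le_sq _ (by norm_num)
    linarith only [hS, sq_nonneg a1, sq_nonneg a2, sq_nonneg a3, sq_nonneg b1, sq_nonneg b2, sq_nonneg b3, sq_nonneg c1, sq_nonneg c2, sq_nonneg c3, sq_nonneg d1, sq_nonneg d3, sq_nonneg e1, sq_nonneg e2, sq_nonneg e3]
  have hd3 : |d3| ≤ (1/1000000) := by
    apply abs_le_of_sq_le_sq _ (by norm_num)
    linarith only [hS, sq_nonneg a1, sq_nonneg a2, sq_nonneg a3, sq_nonneg b1, sq_nonneg b2, sq_nonneg b3, sq_nonneg c1, sq_nonneg c2, sq_nonneg c3, sq_nonneg d1, sq_nonneg d2, sq_nonneg e1, sq_nonneg e2, sq_nonneg e3]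
  have he1 : |e1| ≤ (1/1000000) := by
    apply abs_le_of_sq_le_sq _ (by norm_num)
    linarith only [hS, sq_nonneg a1, sq_nonneg a2, sq_nonneg a3, sq_nonneg b1, sq_nonneg b2, sq_nonneg b3, sq_nonneg c1, sq_nonneg c2, sq_nonneg c3, sq_nonneg d1, sq_nonneg d2, sq_nonneg d3, sq_nonneg e2, sq_nonneg e3]
  have he2 : |e2| ≤ (1/1000000) := by
    apply abs_le_of_sq_le_sq _ (by norm_num)
    linarith only [hS, sq_nonneg a1, sq_nonneg a2, sq_nonneg a3, sq_nonneg b1, sq_nonneg b2, sq_nonneg b3, sq_nonneg c1, sq_nonneg c2, sq_nonneg c3, sq_nonneg d1, sq_nonneg d2, sq_nonneg d3, sq_nonneg e1, sq_nonneg e3]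
  have he3 : |e3| ≤ (1/1000000) := by
    apply abs_le_of_sq_le_sq _ (by norm_num)
    linarith only [hS, sq_nonneg a1, sq_nonneg a2, sq_nonneg a3, sq_nonneg b1, sq_nonneg b2, sq_nonneg b3, sq_nonneg c1, sq_nonneg c2, sq_nonneg c3, sq_nonneg d1, sq_nonneg d2, sq_nonneg d3, sq_nonneg e1, sq_nonneg e2]
  obtain ⟨ha1l, ha1u⟩ := abs_le.1 ha1
  obtain ⟨ha2l, ha2u⟩ := abs_le.1 ha2
  obtain ⟨ha3l, ha3u⟩ := abs_le.1 ha3
  obtain ⟨hb1l, hb1u⟩ := abs_le.1 hb1
  obtain ⟨hb2l, hb2u⟩ := abs_le.1 hb2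
  obtain ⟨hb3l, hb3u⟩ := abs_le.1 hb3
  obtain ⟨hc1l, hc1u⟩ := abs_le.1 hc1
  obtain ⟨hc2l, hc2u⟩ := abs_le.1 hc2
  obtain ⟨hc3l, hc3u⟩ := abs_le.1 hc3
  obtain ⟨hd1l, hd1u⟩ := abs_le.1 hd1
  obtain ⟨hd2l, hd2u⟩ := abs_le.1 hd2
  obtain ⟨hd3l, hd3u⟩ := abs_le.1 hd3
  obtain ⟨he1l, he1u⟩ := abs_le.1 he1
  obtain ⟨he2l, he2u⟩ := abs_le.1 he2
  obtain ⟨he3l, he3u⟩ := abs_le.1 he3
  have hb1n : |-b1| ≤ (1/1000000) := by rw [abs_neg]; exact hb1
  have hc1n : |-c1| ≤ (1/1000000) := by rw [abs_neg]; exact hc1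
  have hd1n : |-d1| ≤ (1/1000000) := by rw [abs_neg]; exact hd1
  have he1n : |-e1| ≤ (1/1000000) := by rw [abs_neg]; exact he1
  obtain ⟨p13, k13⟩ := pair13 a1 a2 a3 b1 b2 b3 c1 c2 c3 ha1 ha2 ha3 hb1 hb2 hb3 hc1 hc2 hc3 h13
  obtain ⟨p14, k14⟩ := pair14 a1 a2 a3 b1 b2 b3 c1 c2 c3 d1 d2 d3 ha1 ha2 ha3 hb1 hb2 hb3 hc1 hc2 hc3 hd1 hd2 hd3 h14
  obtain ⟨p15, k15⟩ := pair15 a1 a2 a3 b1 b2 b3 c1 c2 c3 d1 d2 d3 e1 e2 e3 ha1 ha2 ha3 hb1 hb2 hb3 hc1 hc2 hc3 hd1 hd2 hd3 he1 he2 he3 h15
  obtain ⟨p25, k25⟩ := pair14 (-e1) e2 e3 (-d1) d2 d3 (-c1) c2 c3 (-b1) b2 b3 he1n he2 he3 hd1n hd2 hd3 hc1n hc2 hc3 hb1n hb2 hb3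
    (fun s t hs0 hs1 ht0 ht1 => lt_of_lt_of_eq (h25 t s ht0 ht1 hs0 hs1) (by ring))
  obtain ⟨p35, k35⟩ := pair13 (-e1) e2 e3 (-d1) d2 d3 (-c1) c2 c3 he1n he2 he3 hd1n hd2 hd3 hc1n hc2 hc3
    (fun s t hs0 hs1 ht0 ht1 => lt_of_lt_of_eq (h35 t s ht0 ht1 hs0 hs1) (by ring))
  have hlin : 2*((3397788103/25000000000)*L13 a1 a2 a3 b1 b2 b3 c1 c2 c3 + (216590586719/1000000000000)*L14 a1 a2 a3 b1 b2 b3 c1 c2 c3 d1 d2 d3 + (147497889161/500000000000)*L15 a1 a2 a3 b1 b2 b3 c1 c2 c3 d1 d2 d3 e1 e2 e3 + (216590586719/1000000000000)*L14 (-e1) e2 e3 (-d1) d2 d3 (-c1) c2 c3 (-b1) b2 b3 + (3397788103/25000000000)*L13 (-e1) e2 e3 (-d1) d2 d3 (-c1) c2 c3)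
      ≤ - (2732146343/250000000000)*(b1^2+b2^2+b3^2+d1^2+d2^2+d3^2) - (24023537371/1000000000000)*(c1^2+c2^2+c3^2) + (7/2500000000000000000) := by
    unfold L13 L14 L15
    linarith only [u2, u3, u4, ha1l, ha1u, ha2l, ha2u, ha3l, ha3u, hb1l, hb1u, hb2l, hb2u, hb3l, hb3u, hc1l, hc1u, hc2l, hc2u, hc3l, hc3u, hd1l, hd1u, hd2l, hd2u, hd3l, hd3u, he1l, he1u, he2l, he2u, he3l, he3u]
  have hpos1 : 0 ≤ (2732146343/250000000000)*(b1^2+b2^2+b3^2+d1^2+d2^2+d3^2) + (24023537371/1000000000000)*(c1^2+c2^2+c3^2) := by positivity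
  have hL13l : -(9/500000000000) ≤ L13 a1 a2 a3 b1 b2 b3 c1 c2 c3 := by linarith only [p13, k13]
  have hL14l : -(1/62500000000) ≤ L14 a1 a2 a3 b1 b2 b3 c1 c2 c3 d1 d2 d3 := by linarith only [p14, k14]
  have hL15l : -(23/1000000000000) ≤ L15 a1 a2 a3 b1 b2 b3 c1 c2 c3 d1 d2 d3 e1 e2 e3 := by linarith only [p15, k15]
  have hL25l : -(1/62500000000) ≤ L14 (-e1) e2 e3 (-d1) d2 d3 (-c1) c2 c3 (-b1) b2 b3 := by linarith only [p25, k25]
  have hL35l : -(9/500000000000) ≤ L13 (-e1) e2 e3 (-d1) d2 d3 (-c1) c2 c3 := by linarith only [p35, k35]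
  have hL13u : L13 a1 a2 a3 b1 b2 b3 c1 c2 c3 ≤ (7/50000000000) := by linarith only [hlin, hpos1, hL14l, hL15l, hL25l, hL35l]
  have hL14u : L14 a1 a2 a3 b1 b2 b3 c1 c2 c3 d1 d2 d3 ≤ (87/1000000000000) := by linarith only [hlin, hpos1, hL13l, hL15l, hL25l, hL35l]
  have hL15u : L15 a1 a2 a3 b1 b2 b3 c1 c2 c3 d1 d2 d3 e1 e2 e3 ≤ (1/15625000000) := by linarith only [hlin, hpos1, hL13l, hL14l, hL25l, hL35l]
  have hL25u : L14 (-e1) e2 e3 (-d1) d2 d3 (-c1) c2 c3 (-b1) b2 b3 ≤ (87/1000000000000) := by linarith only [hlin, hpos1, hL13l, hL14l, hL15l, hL35l]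
  have hL35u : L13 (-e1) e2 e3 (-d1) d2 d3 (-c1) c2 c3 ≤ (7/50000000000) := by linarith only [hlin, hpos1, hL13l, hL14l, hL15l, hL25l]
  have hl13 : (l13 a1 a2 a3 b1 b2 b3 c1 c2 c3)^2 ≤ (1/39062500000000000000) := by
    have hu : l13 a1 a2 a3 b1 b2 b3 c1 c2 c3 ≤ L13 a1 a2 a3 b1 b2 b3 c1 c2 c3 + (3/200000000000) := by unfold l13 L13; linarith only [ha1l, ha1u, ha2l, ha2u, ha3l, ha3u, hb1l, hb1u, hb2l, hb2u, hb3l, hb3u, hc1l, hc1u, hc2l, hc2u, hc3l, hc3u, hd1l, hd1u, hd2l, hd2u, hd3l, hd3u, he1l, he1u, he2l, he2u, he3l, he3u]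
    have hl : L13 a1 a2 a3 b1 b2 b3 c1 c2 c3 - (3/200000000000) ≤ l13 a1 a2 a3 b1 b2 b3 c1 c2 c3 := by unfold l13 L13; linarith only [ha1l, ha1u, ha2l, ha2u, ha3l, ha3u, hb1l, hb1u, hb2l, hb2u, hb3l, hb3u, hc1l, hc1u, hc2l, hc2u, hc3l, hc3u, hd1l, hd1u, hd2l, hd2u, hd3l, hd3u, he1l, he1u, he2l, he2u, he3l, he3u]
    have := sq_le_sq' (a := l13 a1 a2 a3 b1 b2 b3 c1 c2 c3) (b := (1/6250000000)) (by linarith only [hu, hl, hL13u, hL13l]) (by linarith only [hu, hl, hL13u, hL13l])
    linarith only [this]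
  have hl14 : (l14 a1 a2 a3 b1 b2 b3 c1 c2 c3 d1 d2 d3)^2 ≤ (1/100000000000000000000) := by
    have hu : l14 a1 a2 a3 b1 b2 b3 c1 c2 c3 d1 d2 d3 ≤ L14 a1 a2 a3 b1 b2 b3 c1 c2 c3 d1 d2 d3 + (13/1000000000000) := by unfold l14 L14; linarith only [ha1l, ha1u, ha2l, ha2u, ha3l, ha3u, hb1l, hb1u, hb2l, hb2u, hb3l, hb3u, hc1l, hc1u, hc2l, hc2u, hc3l, hc3u, hd1l, hd1u, hd2l, hd2u, hd3l, hd3u, he1l, he1u, he2l, he2u, he3l, he3u]
    have hl : L14 a1 a2 a3 b1 b2 b3 c1 c2 c3 d1 d2 d3 - (13/1000000000000) ≤ l14 a1 a2 a3 b1 b2 b3 c1 c2 c3 d1 d2 d3 := by unfold l14 L14; linarith only [ha1l, ha1u, ha2l, ha2u, ha3l, ha3u, hb1l, hb1u, hb2l, hb2u, hb3l, hb3u, hc1l, hc1u, hc2l, hc2u, hc3l, hc3u, hd1l, hd1u, hd2l, hd2u, hd3l, hd3u, he1l, he1u, he2l, he2u, he3l, he3u]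
    have := sq_le_sq' (a := l14 a1 a2 a3 b1 b2 b3 c1 c2 c3 d1 d2 d3) (b := (1/10000000000)) (by linarith only [hu, hl, hL14u, hL14l]) (by linarith only [hu, hl, hL14u, hL14l])
    linarith only [this]
  have hl15 : (l15 a1 a2 a3 b1 b2 b3 c1 c2 c3 d1 d2 d3 e1 e2 e3)^2 ≤ (8281/1000000000000000000000000) := by
    have hu : l15 a1 a2 a3 b1 b2 b3 c1 c2 c3 d1 d2 d3 e1 e2 e3 ≤ L15 a1 a2 a3 b1 b2 b3 c1 c2 c3 d1 d2 d3 e1 e2 e3 + (27/1000000000000) := by unfold l15 L15; linarith only [ha1l, ha1u, ha2l, ha2u, ha3l, ha3u, hb1l, hb1u, hb2l, hb2u, hb3l, hb3u, hc1l, hc1u, hc2l, hc2u, hc3l, hc3u, hd1l, hd1u, hd2l, hd2u, hd3l, hd3u, he1l, he1u, he2l, he2u, he3l, he3u]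
    have hl : L15 a1 a2 a3 b1 b2 b3 c1 c2 c3 d1 d2 d3 e1 e2 e3 - (27/1000000000000) ≤ l15 a1 a2 a3 b1 b2 b3 c1 c2 c3 d1 d2 d3 e1 e2 e3 := by unfold l15 L15; linarith only [ha1l, ha1u, ha2l, ha2u, ha3l, ha3u, hb1l, hb1u, hb2l, hb2u, hb3l, hb3u, hc1l, hc1u, hc2l, hc2u, hc3l, hc3u, hd1l, hd1u, hd2l, hd2u, hd3l, hd3u, he1l, he1u, he2l, he2u, he3l, he3u]
    have := sq_le_sq' (a := l15 a1 a2 a3 b1 b2 b3 c1 c2 c3 d1 d2 d3 e1 e2 e3) (b := (91/1000000000000)) (by linarith only [hu, hl, hL15u, hL15l]) (by linarith only [hu, hl, hL15u, hL15l])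
    linarith only [this]
  have hl25 : (l14 (-e1) e2 e3 (-d1) d2 d3 (-c1) c2 c3 (-b1) b2 b3)^2 ≤ (1/100000000000000000000) := by
    have hu : l14 (-e1) e2 e3 (-d1) d2 d3 (-c1) c2 c3 (-b1) b2 b3 ≤ L14 (-e1) e2 e3 (-d1) d2 d3 (-c1) c2 c3 (-b1) b2 b3 + (13/1000000000000) := by unfold l14 L14; linarith only [ha1l, ha1u, ha2l, ha2u, ha3l, ha3u, hb1l, hb1u, hb2l, hb2u, hb3l, hb3u, hc1l, hc1u, hc2l, hc2u, hc3l, hc3u, hd1l, hd1u, hd2l, hd2u, hd3l, hd3u, he1l, he1u, he2l, he2u, he3l, he3u]
    have hl : L14 (-e1) e2 e3 (-d1) d2 d3 (-c1) c2 c3 (-b1) b2 b3 - (13/1000000000000) ≤ l14 (-e1) e2 e3 (-d1) d2 d3 (-c1) c2 c3 (-b1) b2 b3 := by unfold l14 L14; linarith only [ha1l, ha1u, ha2l, ha2u, ha3l, ha3u, hb1l, hb1u, hb2l, hb2u, hb3l, hb3u, hc1l, hc1u, hc2l, hc2u, hc3l, hc3u, hd1l, hd1u, hd2l, hd2u, hd3l, hd3u, he1l, he1u, he2l, he2u, he3l, he3u]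
    have := sq_le_sq' (a := l14 (-e1) e2 e3 (-d1) d2 d3 (-c1) c2 c3 (-b1) b2 b3) (b := (1/10000000000)) (by linarith only [hu, hl, hL25u, hL25l]) (by linarith only [hu, hl, hL25u, hL25l])
    linarith only [this]
  have hl35 : (l13 (-e1) e2 e3 (-d1) d2 d3 (-c1) c2 c3)^2 ≤ (1/39062500000000000000) := by
    have hu : l13 (-e1) e2 e3 (-d1) d2 d3 (-c1) c2 c3 ≤ L13 (-e1) e2 e3 (-d1) d2 d3 (-c1) c2 c3 + (3/200000000000) := by unfold l13 L13; linarith only [ha1l, ha1u, ha2l, ha2u, ha3l, ha3u, hb1l, hb1u, hb2l, hb2u, hb3l, hb3u, hc1l, hc1u, hc2l, hc2u, hc3l, hc3u, hd1l, hd1u, hd2l, hd2u, hd3l, hd3u, he1l, he1u, he2l, he2u, he3l, he3u]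
    have hl : L13 (-e1) e2 e3 (-d1) d2 d3 (-c1) c2 c3 - (3/200000000000) ≤ l13 (-e1) e2 e3 (-d1) d2 d3 (-c1) c2 c3 := by unfold l13 L13; linarith only [ha1l, ha1u, ha2l, ha2u, ha3l, ha3u, hb1l, hb1u, hb2l, hb2u, hb3l, hb3u, hc1l, hc1u, hc2l, hc2u, hc3l, hc3u, hd1l, hd1u, hd2l, hd2u, hd3l, hd3u, he1l, he1u, he2l, he2u, he3l, he3u]
    have := sq_le_sq' (a := l13 (-e1) e2 e3 (-d1) d2 d3 (-c1) c2 c3) (b := (1/6250000000)) (by linarith only [hu, hl, hL35u, hL35l]) (by linarith only [hu, hl, hL35u, hL35l])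
    linarith only [this]
  have hu1 : ((-1199/2000)*a1 + (73931/100000)*a2 + (-15331/50000)*a3)^2 ≤ (9801/100000000000000000000000000) := by
    have := sq_le_sq' (a := (-1199/2000)*a1 + (73931/100000)*a2 + (-15331/50000)*a3) (b := (99/10000000000000))
      (by linarith only [u1, hS, sq_nonneg a1, sq_nonneg a2, sq_nonneg a3, sq_nonneg b1, sq_nonneg b2, sq_nonneg b3, sq_nonneg c1, sq_nonneg c2, sq_nonneg c3, sq_nonneg d1, sq_nonneg d2, sq_nonneg d3, sq_nonneg e1, sq_nonneg e2, sq_nonneg e3, ha1l, ha1u, ha2l, ha2u, ha3l, ha3u]) (by linarith only [u1, hS, sq_nonneg a1, sq_nonneg a2, sq_nonneg a3, sq_nonneg b1, sq_nonneg b2, sq_nonneg b3, sq_nonneg c1, sq_nonneg c2, sq_nonneg c3, sq_nonneg d1, sq_nonneg d2, sq_nonneg d3, sq_nonneg e1, sq_nonneg e2, sq_nonneg e3, ha1l, ha1u, ha2l, ha2u, ha3l, ha3u])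
    linarith only [this]
  have hu2 : ((293/400)*b1 + (-2253/4000)*b2 + (-7647/20000)*b3)^2 ≤ (529/6250000000000000000000000) := by
    have := sq_le_sq' (a := (293/400)*b1 + (-2253/4000)*b2 + (-7647/20000)*b3) (b := (23/2500000000000))
      (by linarith only [u2, hS, sq_nonneg a1, sq_nonneg a2, sq_nonneg a3, sq_nonneg b1, sq_nonneg b2, sq_nonneg b3, sq_nonneg c1, sq_nonneg c2, sq_nonneg c3, sq_nonneg d1, sq_nonneg d2, sq_nonneg d3, sq_nonneg e1, sq_nonneg e2, sq_nonneg e3, hb1l, hb1u, hb2l, hb2u, hb3l, hb3u]) (by linarith only [u2, hS, sq_nonneg a1, sq_nonneg a2, sq_nonneg a3, sq_nonneg b1, sq_nonneg b2, sq_nonneg b3, sq_nonneg c1, sq_nonneg c2, sq_nonneg c3, sq_nonneg d1, sq_nonneg d2, sq_nonneg d3, sq_nonneg e1, sq_nonneg e2, sq_nonneg e3, hb1l, hb1u, hb2l, hb2u, hb3l, hb3u])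
    linarith only [this]
  have hu3 : (1*c3)^2 ≤ (1/1000000000000000000000000) := by
    have := sq_le_sq' (a := 1*c3) (b := (1/1000000000000))
      (by linarith only [u3, hS, sq_nonneg a1, sq_nonneg a2, sq_nonneg a3, sq_nonneg b1, sq_nonneg b2, sq_nonneg b3, sq_nonneg c1, sq_nonneg c2, sq_nonneg c3, sq_nonneg d1, sq_nonneg d2, sq_nonneg d3, sq_nonneg e1, sq_nonneg e2, sq_nonneg e3, hc1l, hc1u, hc2l, hc2u, hc3l, hc3u]) (by linarith only [u3, hS, sq_nonneg a1, sq_nonneg a2, sq_nonneg a3, sq_nonneg b1, sq_nonneg b2, sq_nonneg b3, sq_nonneg c1, sq_nonneg c2, sq_nonneg c3, sq_nonneg d1, sq_nonneg d2, sq_nonneg d3, sq_nonneg e1, sq_nonneg e2, sq_nonneg e3, hc1l, hc1u, hc2l, hc2u, hc3l, hc3u])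
    linarith only [this]
  have hu4 : ((-293/400)*d1 + (-2253/4000)*d2 + (-7647/20000)*d3)^2 ≤ (529/6250000000000000000000000) := by
    have := sq_le_sq' (a := (-293/400)*d1 + (-2253/4000)*d2 + (-7647/20000)*d3) (b := (23/2500000000000))
      (by linarith only [u4, hS, sq_nonneg a1, sq_nonneg a2, sq_nonneg a3, sq_nonneg b1, sq_nonneg b2, sq_nonneg b3, sq_nonneg c1, sq_nonneg c2, sq_nonneg c3, sq_nonneg d1, sq_nonneg d2, sq_nonneg d3, sq_nonneg e1, sq_nonneg e2, sq_nonneg e3, hd1l, hd1u, hd2l, hd2u, hd3l, hd3u]) (by linarith only [u4, hS, sq_nonneg a1, sq_nonneg a2, sq_nonneg a3, sq_nonneg b1, sq_nonneg b2, sq_nonneg b3, sq_nonneg c1, sq_nonneg c2, sq_nonneg c3, sq_nonneg d1, sq_nonneg d2, sq_nonneg d3, sq_nonneg e1, sq_nonneg e2, sq_nonneg e3, hd1l, hd1u, hd2l, hd2u, hd3l, hd3u])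
    linarith only [this]
  have hu5 : ((1199/2000)*e1 + (73931/100000)*e2 + (-15331/50000)*e3)^2 ≤ (9801/100000000000000000000000000) := by
    have := sq_le_sq' (a := (1199/2000)*e1 + (73931/100000)*e2 + (-15331/50000)*e3) (b := (99/10000000000000))
      (by linarith only [u5, hS, sq_nonneg a1, sq_nonneg a2, sq_nonneg a3, sq_nonneg b1, sq_nonneg b2, sq_nonneg b3, sq_nonneg c1, sq_nonneg c2, sq_nonneg c3, sq_nonneg d1, sq_nonneg d2, sq_nonneg d3, sq_nonneg e1, sq_nonneg e2, sq_nonneg e3, he1l, he1u, he2l, he2u, he3l, he3u]) (by linarith only [u5, hS, sq_nonneg a1, sq_nonneg a2, sq_nonneg a3, sq_nonneg b1, sq_nonneg b2, sq_nonneg b3, sq_nonneg c1, sq_nonneg c2, sq_nonneg c3, sq_nonneg d1, sq_nonneg d2, sq_nonneg d3, sq_nonneg e1, sq_nonneg e2, sq_nonneg e3, he1l, he1u, he2l, he2u, he3l, he3u])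
    linarith only [this]
  have hr1 : ((15331/50000)*a2 + (73931/100000)*a3 + (7647/20000)*b2 + (-2253/4000)*b3 + (-1)*c2 + (7647/20000)*d2 + (-2253/4000)*d3 + (15331/50000)*e2 + (73931/100000)*e3)^2 ≤ (121/250000000000000000000000) := by
    have := sq_le_sq' (a := (15331/50000)*a2 + (73931/100000)*a3 + (7647/20000)*b2 + (-2253/4000)*b3 + (-1)*c2 + (7647/20000)*d2 + (-2253/4000)*d3 + (15331/50000)*e2 + (73931/100000)*e3) (b := (11/500000000000))
      (by linarith only [r2, ha1l, ha1u, ha2l, ha2u, ha3l, ha3u, hb1l, hb1u, hb2l, hb2u, hb3l, hb3u, hc1l, hc1u, hc2l, hc2u, hc3l, hc3u, hd1l, hd1u, hd2l, hd2u, hd3l, hd3u, he1l, he1u, he2l, he2u, he3l, he3u]) (by linarith only [r2, ha1l, ha1u, ha2l, ha2u, ha3l, ha3u, hb1l, hb1u, hb2l, hb2u, hb3l, hb3u, hc1l, hc1u, hc2l, hc2u, hc3l, hc3u, hd1l, hd1u, hd2l, hd2u, hd3l, hd3u, he1l, he1u, he2l, he2u, he3l, he3u])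
    linarith only [this]
  have hr2 : ((-15331/50000)*a1 + (1199/2000)*a3 + (-7647/20000)*b1 + (-293/400)*b3 + 1*c1 + (-7647/20000)*d1 + (293/400)*d3 + (-15331/50000)*e1 + (-1199/2000)*e3)^2 ≤ (169/250000000000000000000000) := by
    have := sq_le_sq' (a := (-15331/50000)*a1 + (1199/2000)*a3 + (-7647/20000)*b1 + (-293/400)*b3 + 1*c1 + (-7647/20000)*d1 + (293/400)*d3 + (-15331/50000)*e1 + (-1199/2000)*e3) (b := (13/500000000000))
      (by linarith only [r3, ha1l, ha1u, ha2l, ha2u, ha3l, ha3u, hb1l, hb1u, hb2l, hb2u, hb3l, hb3u, hc1l, hc1u, hc2l, hc2u, hc3l, hc3u, hd1l, hd1u, hd2l, hd2u, hd3l, hd3u, he1l, he1u, he2l, he2u, he3l, he3u]) (by linarith only [r3, ha1l, ha1u, ha2l, ha2u, ha3l, ha3u, hb1l, hb1u, hb2l, hb2u, hb3l, hb3u, hc1l, hc1u, hc2l, hc2u, hc3l, hc3u, hd1l, hd1u, hd2l, hd2u, hd3l, hd3u, he1l, he1u, he2l, he2u, he3l, he3u])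
    linarith only [this]
  have hr3 : ((-73931/100000)*a1 + (-1199/2000)*a2 + (2253/4000)*b1 + (293/400)*b2 + (2253/4000)*d1 + (-293/400)*d2 + (-73931/100000)*e1 + (1199/2000)*e2)^2 ≤ (121/250000000000000000000000) := by
    have := sq_le_sq' (a := (-73931/100000)*a1 + (-1199/2000)*a2 + (2253/4000)*b1 + (293/400)*b2 + (2253/4000)*d1 + (-293/400)*d2 + (-73931/100000)*e1 + (1199/2000)*e2) (b := (11/500000000000))
      (by linarith only [r1, ha1l, ha1u, ha2l, ha2u, ha3l, ha3u, hb1l, hb1u, hb2l, hb2u, hb3l, hb3u, hc1l, hc1u, hc2l, hc2u, hc3l, hc3u, hd1l, hd1u, hd2l, hd2u, hd3l, hd3u, he1l, he1u, he2l, he2u, he3l, he3u]) (by linarith only [r1, ha1l, ha1u, ha2l, ha2u, ha3l, ha3u, hb1l, hb1u, hb2l, hb2u, hb3l, hb3u, hc1l, hc1u, hc2l, hc2u, hc3l, hc3u, hd1l, hd1u, hd2l, hd2u, hd3l, hd3u, he1l, he1u, he2l, he2u, he3l, he3u])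
    linarith only [this]
  have hcert := cert a1 a2 a3 b1 b2 b3 c1 c2 c3 d1 d2 d3 e1 e2 e3
  linarith only [hcert, hlin, p13, p14, p15, p25, p35, hl13, hl14, hl15, hl25, hl35, hu1, hu2, hu3, hu4, hu5, hr1, hr2, hr3]

end Pool.Agent.FatChain
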