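import Mathlib
import Pool.Agent.Lib.MP_0c5608_co.Defs
import Pool.Agent.Lib.MP_0c5608_co.Geo
import Pool.Agent.Lib.MP_0c5608_co.Frame
import Pool.Agent.Lib.MP_0c5608_co.Trap

/-! The trap along a motion. -/

set_option autoImplicit false
set_option maxHeartbeats 4000000
set_option maxRecDepth 100000

namespace Pool.Agent.FatChain

noncomputable section

/-- first coordinates of the five reference directions -/
def px : Fin 5 → ℝ := ![(-183528218127036517600000000000000000/306134241700818260119283571600499737), (211959389351195114800000000000000000/289362864314031832820864927732648629), 0, (-211959389351195114800000000000000000/289362864314031832820864927732648629), (183528218127036517600000000000000000/306134241700818260119283571600499737)]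

/-- second coordinates -/
def py : Fin 5 → ℝ := ![(226328934322966122800000000000000000/306134241700818260119283571600499737), (-162983154703466030400000000000000000/289362864314031832820864927732648629), 0, (-162983154703466030400000000000000000/289362864314031832820864927732648629), (226328934322966122800000000000000000/306134241700818260119283571600499737)]

/-- third coordinates -/
def pz : Fin 5 → ℝ := ![(-93865758299181739880716428399500263/306134241700818260119283571600499737), (-110637135685968167179135072267351371/289362864314031832820864927732648629), 1, (-110637135685968167179135072267351371/289362864314031832820864927732648629), (-93865758299181739880716428399500263/306134241700818260119283571600499737)]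

/-- thickness over length of the middle links -/
def del : ℝ := 214197824722297/1000000000000000

/-- the length of the middle links (for unit radius) -/
def Lm : ℝ := 2/del

/-- the link lengths: end links `r` times as long as the middle links -/
def len (r : ℝ) : Fin 5 → ℝ := ![r*Lm, Lm, Lm, Lm, r*Lm]

theorem del_pos : 0 < del := by unfold del; norm_num

theorem Lm_pos : 0 < Lm := div_pos two_pos del_pos

theorem Lm_gt : 2 < Lm := by
  unfold Lm del; norm_num

theorem Lm_del : Lm * del = 2 := by
  unfold Lm; field_simp [del_pos.ne']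

theorem del_sq : del^2 = (45880708115763867885168956209/1000000000000000000000000000000) := by unfold del; norm_num

theorem len_pos {r : ℝ} (hr : 1 ≤ r) (k : Fin 5) : 0 < len r k := by
  have h := Lm_pos
  have h2 : 0 < r * Lm := mul_pos (by linarith) h
  fin_cases k
  · exact h2
  · exact h
  · exact h
  · exact h
  · exact h2

/-- unit directions of the links -/
def dirs (ℓ : Fin 5 → ℝ) (v : Fin 6 → E3) (k : Fin 5) : E3 :=
  (1 / ℓ k) • (v k.succ - v k.castSucc)

theorem smul_dirs {ℓ : Fin 5 → ℝ} {v : Fin 6 → E3} {k : Fin 5} (hl : 0 < ℓ k) :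
    ℓ k • dirs ℓ v k = v k.succ - v k.castSucc := by
  unfold dirs
  rw [smul_smul, mul_one_div_cancel hl.ne', one_smul]

theorem norm_dirs {ℓ : Fin 5 → ℝ} {v : Fin 6 → E3} {k : Fin 5} (hl : 0 < ℓ k)
    (h : IsConfig ℓ v) : ‖dirs ℓ v k‖ = 1 := by
  unfold dirs
  rw [norm_smul, ← dist_eq_norm, dist_comm, h k, Real.norm_eq_abs, abs_of_pos (by positivity)]
  field_simp

theorem pair_far {ℓ : Fin 5 → ℝ} {v : Fin 6 → E3} (hl : ∀ k, 0 < ℓ k) (hs : IsSimple v)
    {i j : Fin 5} (hij : i.val + 2 ≤ j.val) {s t : ℝ} (hs0 : 0 ≤ s) (hs1 : s ≤ ℓ i)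
    (ht0 : 0 ≤ t) (ht1 : t ≤ ℓ j) :
    2 < ‖s • dirs ℓ v i + (v j.castSucc - v i.succ) + t • dirs ℓ v j‖ := by
  rw [isSimple_iff] at hs
  have hi := smul_dirs (v := v) (hl i)
  have hj := smul_dirs (v := v) (hl j)
  have hp : v i.succ - s • dirs ℓ v i ∈ segment ℝ (v i.castSucc) (v i.succ) := by
    rw [segment_symm, segment_eq_image']
    refine ⟨s / ℓ i, ⟨div_nonneg hs0 (hl i).le, (div_le_one (hl i)).2 hs1⟩, ?_⟩
    have : v i.castSucc - v i.succ = - (ℓ i • dirs ℓ v i) := by rw [hi]; abel
    simp only []
    rw [this, smul_neg, smul_smul, div_mul_cancel₀ _ (hl i).ne']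
    abel
  have hq : v j.castSucc + t • dirs ℓ v j ∈ segment ℝ (v j.castSucc) (v j.succ) := by
    rw [segment_eq_image']
    refine ⟨t / ℓ j, ⟨div_nonneg ht0 (hl j).le, (div_le_one (hl j)).2 ht1⟩, ?_⟩
    simp only []
    rw [← hj, smul_smul, div_mul_cancel₀ _ (hl j).ne']
  have h := hs i j hij _ hp _ hq
  rw [dist_comm, dist_eq_norm] at h
  have e : v j.castSucc + t • dirs ℓ v j - (v i.succ - s • dirs ℓ v i)
      = s • dirs ℓ v i + (v j.castSucc - v i.succ) + t • dirs ℓ v j := by abel
  rwa [e] at h

/-- scaled version -/
theorem pair_far' {r : ℝ} (hr : 10008/10000 ≤ r) {v : Fin 6 → E3} (hs : IsSimple v)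
    {i j : Fin 5} (hij : i.val + 2 ≤ j.val) {s t A B : ℝ} (hs0 : 0 ≤ s) (hs1 : s ≤ A)
    (ht0 : 0 ≤ t) (ht1 : t ≤ B) (hA : A * Lm ≤ len r i) (hB : B * Lm ≤ len r j) {m : E3}
    (hm : v j.castSucc - v i.succ = Lm • m) :
    del^2 < ‖s • dirs (len r) v i + m + t • dirs (len r) v j‖^2 := by
  have hL := Lm_pos
  have h := pair_far (v := v) (len_pos (r := r) (by linarith)) hs hij (s := s * Lm) (t := t * Lm)
    (by positivity) ((mul_le_mul_of_nonneg_right hs1 hL.le).trans hA) (by positivity)
    ((mul_le_mul_of_nonneg_right ht1 hL.le).trans hB)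
  have e : (s * Lm) • dirs (len r) v i + (v j.castSucc - v i.succ)
      + (t * Lm) • dirs (len r) v j
      = Lm • (s • dirs (len r) v i + m + t • dirs (len r) v j) := by
    rw [hm, smul_add, smul_add, smul_smul, smul_smul, mul_comm s, mul_comm t]
  rw [e, norm_smul, Real.norm_eq_abs, abs_of_pos hL] at h
  have h2 : del < ‖s • dirs (len r) v i + m + t • dirs (len r) v j‖ := by
    rw [← Lm_del] at h
    exact lt_of_mul_lt_mul_left h hL.le
  exact pow_lt_pow_left₀ h2 del_pos.le two_ne_zero

theorem misfit_eq (u : Fin 5 → E3) (x y z : E3) :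
    misfit u px py pz x y z = (inner ℝ x (u 0) - (-183528218127036517600000000000000000/306134241700818260119283571600499737))^2 + (inner ℝ y (u 0) - (226328934322966122800000000000000000/306134241700818260119283571600499737))^2 + (inner ℝ z (u 0) - (-93865758299181739880716428399500263/306134241700818260119283571600499737))^2 + (inner ℝ x (u 1) - (211959389351195114800000000000000000/289362864314031832820864927732648629))^2 + (inner ℝ y (u 1) - (-162983154703466030400000000000000000/289362864314031832820864927732648629))^2 + (inner ℝ z (u 1) - (-110637135685968167179135072267351371/289362864314031832820864927732648629))^2 + (inner ℝ x (u 2) - 0)^2 + (inner ℝ y (u 2) - 0)^2 + (inner ℝ z (u 2) - 1)^2 + (inner ℝ x (u 3) - (-211959389351195114800000000000000000/289362864314031832820864927732648629))^2 + (inner ℝ y (u 3) - (-162983154703466030400000000000000000/289362864314031832820864927732648629))^2 + (inner ℝ z (u 3) - (-110637135685968167179135072267351371/289362864314031832820864927732648629))^2 + (inner ℝ x (u 4) - (183528218127036517600000000000000000/306134241700818260119283571600499737))^2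 + (inner ℝ y (u 4) - (226328934322966122800000000000000000/306134241700818260119283571600499737))^2 + (inner ℝ z (u 4) - (-93865758299181739880716428399500263/306134241700818260119283571600499737))^2 := by
  unfold misfit
  rw [Fin.sum_univ_five]
  change ((inner ℝ x (u 0) - (-183528218127036517600000000000000000/306134241700818260119283571600499737))^2 + (inner ℝ y (u 0) - (226328934322966122800000000000000000/306134241700818260119283571600499737))^2 + (inner ℝ z (u 0) - (-93865758299181739880716428399500263/306134241700818260119283571600499737))^2) + ((inner ℝ x (u 1) - (211959389351195114800000000000000000/289362864314031832820864927732648629))^2 + (inner ℝ y (u 1) - (-162983154703466030400000000000000000/289362864314031832820864927732648629))^2 + (inner ℝ z (u 1) - (-110637135685968167179135072267351371/289362864314031832820864927732648629))^2) + ((inner ℝ x (u 2) - 0)^2 + (inner ℝ y (u 2) - 0)^2 + (inner ℝ z (u 2) - 1)^2) + ((inner ℝ x (u 3) - (-211959389351195114800000000000000000/289362864314031832820864927732648629))^2 + (inner ℝ y (u 3) - (-162983154703466030400000000000000000/289362864314031832820864927732648629))^2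 + (inner ℝ z (u 3) - (-110637135685968167179135072267351371/289362864314031832820864927732648629))^2) + ((inner ℝ x (u 4) - (183528218127036517600000000000000000/306134241700818260119283571600499737))^2 + (inner ℝ y (u 4) - (226328934322966122800000000000000000/306134241700818260119283571600499737))^2 + (inner ℝ z (u 4) - (-93865758299181739880716428399500263/306134241700818260119283571600499737))^2) = _
  ring

theorem trap_config {r : ℝ} (hr : 10008/10000 ≤ r) {v : Fin 6 → E3} (hc : IsConfig (len r) v)
    (hs : IsSimple v) {x0 y0 z0 : E3} (h0 : On3 x0 y0 z0)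
    (hm0 : misfit (dirs (len r) v) px py pz x0 y0 z0 ≤ 1/1000000000000) :
    ∃ x y z : E3, On3 x y z ∧ misfit (dirs (len r) v) px py pz x y z ≤ 1/2000000000000 := by
  obtain ⟨x, y, z, hon, hmin⟩ := exists_best (dirs (len r) v) px py pz h0
  have hm : misfit (dirs (len r) v) px py pz x y z ≤ 1/1000000000000 :=
    (hmin _ _ _ h0).trans hm0
  have hlp := len_pos (r := r) (by linarith)
  have hn : ∀ k, ‖dirs (len r) v k‖ = 1 := fun k => norm_dirs (hlp k) hc
  have hL := Lm_pos
  have hA : (10008/10000 : ℝ) * Lm ≤ r * Lm := mul_le_mul_of_nonneg_right hr hL.le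
  have e1 : v 2 - v 1 = Lm • dirs (len r) v 1 := (smul_dirs (ℓ := len r) (v := v) (k := 1) (hlp 1)).symm
  have e2 : v 3 - v 2 = Lm • dirs (len r) v 2 := (smul_dirs (ℓ := len r) (v := v) (k := 2) (hlp 2)).symm
  have e3 : v 4 - v 3 = Lm • dirs (len r) v 3 := (smul_dirs (ℓ := len r) (v := v) (k := 3) (hlp 3)).symm
  have f13 : v 3 - v 1 = Lm • (dirs (len r) v 1 + dirs (len r) v 2) := by
    rw [smul_add, ← e1, ← e2]; abel
  have f14 : v 4 - v 1 = Lm • (dirs (len r) v 1 + dirs (len r) v 2 + dirs (len r) v 3) := by
    rw [smul_add, smul_add, ← e1, ← e2, ← e3]; abel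
  have f24 : v 4 - v 2 = Lm • (dirs (len r) v 2 + dirs (len r) v 3) := by
    rw [smul_add, ← e2, ← e3]; abel
  have R1 := rot_eq hon hmin
  have R2 := rot_eq (u := dirs (len r) v) (p := py) (q := pz) (r := px) hon.cyc (fun x' y' z' h' => by
    rw [← misfit_cyc (dirs (len r) v) px py pz x y z,
      ← misfit_cyc (dirs (len r) v) px py pz z' x' y']
    exact hmin _ _ _ h'.cyc.cyc)
  have R3 := rot_eq (u := dirs (len r) v) (p := pz) (q := px) (r := py) hon.cyc.cyc (fun x' y' z' h' => by
    rw [misfit_cyc (dirs (len r) v) pz px py z x y,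
      misfit_cyc (dirs (len r) v) pz px py x' y' z']
    exact hmin _ _ _ h'.cyc)
  rw [Fin.sum_univ_five] at R1 R2 R3
  set u := dirs (len r) v with hu
  rw [misfit_eq] at hm
  refine ⟨x, y, z, hon, ?_⟩
  rw [misfit_eq]
  apply trap (inner ℝ x (u 0) - (-183528218127036517600000000000000000/306134241700818260119283571600499737)) (inner ℝ y (u 0) - (226328934322966122800000000000000000/306134241700818260119283571600499737)) (inner ℝ z (u 0) - (-93865758299181739880716428399500263/306134241700818260119283571600499737)) (inner ℝ x (u 1) - (211959389351195114800000000000000000/289362864314031832820864927732648629)) (inner ℝ y (u 1) - (-162983154703466030400000000000000000/289362864314031832820864927732648629)) (inner ℝ z (u 1) - (-110637135685968167179135072267351371/289362864314031832820864927732648629)) (inner ℝ x (u 2) - 0) (inner ℝ y (u 2) - 0) (inner ℝ z (u 2) - 1) (inner ℝ x (u 3) - (-211959389351195114800000000000000000/289362864314031832820864927732648629)) (inner ℝ y (u 3) - (-162983154703466030400000000000000000/289362864314031832820864927732648629))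 (inner ℝ z (u 3) - (-110637135685968167179135072267351371/289362864314031832820864927732648629)) (inner ℝ x (u 4) - (183528218127036517600000000000000000/306134241700818260119283571600499737)) (inner ℝ y (u 4) - (226328934322966122800000000000000000/306134241700818260119283571600499737)) (inner ℝ z (u 4) - (-93865758299181739880716428399500263/306134241700818260119283571600499737)) hm
  · have := hon.parseval (u 0)
    rw [hn 0] at this
    linear_combination -this
  · have := hon.parseval (u 1)
    rw [hn 1] at this
    linear_combination -this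
  · have := hon.parseval (u 2)
    rw [hn 2] at this
    linear_combination -this
  · have := hon.parseval (u 3)
    rw [hn 3] at this
    linear_combination -this
  · have := hon.parseval (u 4)
    rw [hn 4] at this
    linear_combination -this
  · refine Eq.trans ?_ R1
    simp only [px, py, pz, Matrix.cons_val]
    ring
  · refine Eq.trans ?_ R2
    simp only [px, py, pz, Matrix.cons_val]
    ring
  · refine Eq.trans ?_ R3
    simp only [px, py, pz, Matrix.cons_val]
    ring
  · intro s t hs0 hs1 ht0 ht1
    have h := pair_far' hr hs (i := 0) (j := 2) (by decide) hs0 hs1 ht0 ht1 hA (by rw [one_mul]; exact le_refl _) (m := u 1) e1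
    rw [← hu, hon.parseval, del_sq] at h
    refine lt_of_lt_of_eq h ?_
    simp only [inner_add_right, inner_smul_right]
    ring
  · intro s t hs0 hs1 ht0 ht1
    have h := pair_far' hr hs (i := 0) (j := 3) (by decide) hs0 hs1 ht0 ht1 hA (by rw [one_mul]; exact le_refl _) (m := u 1 + u 2) f13
    rw [← hu, hon.parseval, del_sq] at h
    refine lt_of_lt_of_eq h ?_
    simp only [inner_add_right, inner_smul_right]
    ring
  · intro s t hs0 hs1 ht0 ht1
    have h := pair_far' hr hs (i := 0) (j := 4) (by decide) hs0 hs1 ht0 ht1 hA hA (m := u 1 + u 2 + u 3) f14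
    rw [← hu, hon.parseval, del_sq] at h
    refine lt_of_lt_of_eq h ?_
    simp only [inner_add_right, inner_smul_right]
    ring
  · intro s t hs0 hs1 ht0 ht1
    have h := pair_far' hr hs (i := 1) (j := 4) (by decide) hs0 hs1 ht0 ht1 (by rw [one_mul]; exact le_refl _) hA (m := u 2 + u 3) f24
    rw [← hu, hon.parseval, del_sq] at h
    refine lt_of_lt_of_eq h ?_
    simp only [inner_add_right, inner_smul_right]
    ring
  · intro s t hs0 hs1 ht0 ht1
    have h := pair_far' hr hs (i := 2) (j := 4) (by decide) hs0 hs1 ht0 ht1 (by rw [one_mul]; exact le_refl _) hA (m := u 3) e3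
    rw [← hu, hon.parseval, del_sq] at h
    refine lt_of_lt_of_eq h ?_
    simp only [inner_add_right, inner_smul_right]
    ring

/-- along a motion, the misfit cannot leave the trap -/
theorem trapped {r : ℝ} (hr : 10008/10000 ≤ r) {γ : ℝ → Fin 6 → E3} (hγ : IsMotion (len r) γ)
    (h0 : ∃ x y z : E3, On3 x y z ∧
      misfit (dirs (len r) (γ 0)) px py pz x y z ≤ 1/2000000000000) :
    ∃ x y z : E3, On3 x y z ∧
      misfit (dirs (len r) (γ 1)) px py pz x y z ≤ 1/2000000000000 := by
  obtain ⟨hcont, hγ⟩ := hγ
  -- the directions are uniformly continuous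
  have hdc : ContinuousOn (fun t => fun k => dirs (len r) (γ t) k) (Set.Icc 0 1) := by
    apply continuousOn_pi.2
    intro k
    unfold dirs
    have hk : ContinuousOn (fun t => γ t k.succ - γ t k.castSucc) (Set.Icc 0 1) :=
      ((continuousOn_pi.1 hcont) k.succ).sub ((continuousOn_pi.1 hcont) k.castSucc)
    exact hk.const_smul (1 / len r k)
  have huc := isCompact_Icc.uniformContinuousOn_of_continuous hdc
  rw [Metric.uniformContinuousOn_iff] at huc
  obtain ⟨ε, hε, hu⟩ := huc (1/100000000) (by norm_num)
  obtain ⟨N, hN⟩ := exists_nat_gt (1/ε)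
  have hNpos : (0:ℝ) < N := lt_trans (by positivity) hN
  have hind : ∀ k : ℕ, k ≤ N → ∃ x y z : E3, On3 x y z ∧
      misfit (dirs (len r) (γ ((k:ℝ)/N))) px py pz x y z ≤ 1/2000000000000 := by
    intro k
    induction k with
    | zero => intro _; simpa using h0
    | succ k ih =>
      intro hk
      obtain ⟨x, y, z, hon, hm⟩ := ih (by omega)
      have hkN : ((k:ℝ) + 1) ≤ N := by exact_mod_cast hk
      have m1 : ((k:ℝ)/N) ∈ Set.Icc (0:ℝ) 1 :=
        ⟨by positivity, (div_le_one hNpos).2 (by linarith)⟩
      have m2 : (((k+1:ℕ):ℝ)/N) ∈ Set.Icc (0:ℝ) 1 :=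
        ⟨by positivity, (div_le_one hNpos).2 (by push_cast; linarith)⟩
      have hd : dist (((k+1:ℕ):ℝ)/N) ((k:ℝ)/N) < ε := by
        rw [Real.dist_eq]
        have : (((k+1:ℕ):ℝ)/N) - ((k:ℝ)/N) = 1/N := by push_cast; ring
        rw [this, abs_of_pos (by positivity)]
        rw [div_lt_iff₀ hNpos]
        rw [div_lt_iff₀ hε] at hN
        linarith
      have hd2 := hu _ m2 _ m1 hd
      have hsum : ∑ k', ‖dirs (len r) (γ (((k+1:ℕ):ℝ)/N)) k'
          - dirs (len r) (γ ((k:ℝ)/N)) k'‖^2 ≤ 5 * (1/100000000)^2 := by
        have : ∀ k' : Fin 5, ‖dirs (len r) (γ (((k+1:ℕ):ℝ)/N)) k'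
          - dirs (len r) (γ ((k:ℝ)/N)) k'‖^2 ≤ (1/100000000)^2 := by
          intro k'
          have h1 : ‖dirs (len r) (γ (((k+1:ℕ):ℝ)/N)) k'
            - dirs (len r) (γ ((k:ℝ)/N)) k'‖ ≤ 1/100000000 := by
            rw [← dist_eq_norm]
            exact (dist_le_pi_dist _ _ k').trans hd2.le
          exact pow_le_pow_left₀ (norm_nonneg _) h1 2
        calc _ ≤ ∑ k' : Fin 5, ((1:ℝ)/100000000)^2 := Finset.sum_le_sum fun k' _ => this k'
          _ = 5 * (1/100000000)^2 := by rw [Finset.sum_const]; simp
      have hp := misfit_perturb (u := dirs (len r) (γ ((k:ℝ)/N)))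
        (u' := dirs (len r) (γ (((k+1:ℕ):ℝ)/N))) (p := px) (q := py) (r := pz) hon
      obtain ⟨c1, c2⟩ := hγ _ m2
      refine trap_config hr c1 c2 hon ?_
      refine hp.trans ?_
      have : (5:ℝ) * (1/100000000)^2 = 1/2000000000000000 := by norm_num
      rw [this] at hsum
      linarith
  have := hind N le_rfl
  rwa [div_self hNpos.ne'] at this

end

end Pool.Agent.FatChain
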